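import Mathlib

/-!
# Square roots of integers in cyclotomic fields
-/

set_option autoImplicit false

namespace Pool.Agent.H3.MQ

open scoped Classical

section

variable {K : Type} [Field K] [CharZero K] {N : ℕ} {ζ : K}

theorem sq_neg_one (hN : N ≠ 0) (hζ : IsPrimitiveRoot ζ (8 * N)) : IsSquare (-1 : K) := by
  have h1 : IsPrimitiveRoot (ζ ^ (2 * N)) 4 := hζ.pow (by omega) (by ring)
  have h2 : (ζ ^ (2 * N)) ^ 2 = -1 := by
    have h3 : ((ζ ^ (2 * N)) ^ 2) ^ 2 = 1 := by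
      rw [← pow_mul]
      exact h1.pow_eq_one
    rcases mul_self_eq_one_iff.1 ((sq _).symm.trans h3) with h | h
    · exfalso
      exact h1.pow_ne_one_of_pos_of_lt (by norm_num) (by norm_num) h
    · exact h
  exact ⟨ζ ^ (2 * N), by rw [← sq, h2]⟩

theorem sq_two (hN : N ≠ 0) (hζ : IsPrimitiveRoot ζ (8 * N)) : IsSquare (2 : K) := by
  have h1 : IsPrimitiveRoot (ζ ^ N) 8 := hζ.pow (by omega) (by ring)
  have h0 : ζ ^ N ≠ 0 := h1.ne_zero (by norm_num)
  have h2 : (ζ ^ N) ^ 4 = -1 := by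
    have h3 : ((ζ ^ N) ^ 4) ^ 2 = 1 := by
      rw [← pow_mul]
      exact h1.pow_eq_one
    rcases mul_self_eq_one_iff.1 ((sq _).symm.trans h3) with h | h
    · exfalso
      exact h1.pow_ne_one_of_pos_of_lt (by norm_num) (by norm_num) h
    · exact h
  refine ⟨ζ ^ N + (ζ ^ N)⁻¹, ?_⟩
  have h4 : (ζ ^ N + (ζ ^ N)⁻¹) * (ζ ^ N + (ζ ^ N)⁻¹) =
      2 + ((ζ ^ N)⁻¹) ^ 2 * ((ζ ^ N) ^ 4 + 1) := by
    field_simp
    ring
  rw [h4, h2]
  ring

theorem sq_prime (hN : N ≠ 0) (hζ : IsPrimitiveRoot ζ (8 * N)) {p : ℕ} (hp : p.Prime)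
    (hpN : p ∣ N) : IsSquare (p : K) := by
  by_cases h2 : p = 2
  · subst h2
    exact_mod_cast sq_two hN hζ
  have : Fact p.Prime := ⟨hp⟩
  obtain ⟨t, ht⟩ := hpN
  have h1 : IsPrimitiveRoot (ζ ^ (8 * t)) p := hζ.pow (by omega) (by rw [ht]; ring)
  have hψ := AddChar.zmodChar_primitive_of_primitive_root p h1
  set χ : MulChar (ZMod p) K := (quadraticChar (ZMod p)).ringHomComp (Int.castRingHom K) with hχ
  have hc : ringChar (ZMod p) ≠ 2 := by
    rw [ZMod.ringChar_zmod_n]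
    exact h2
  have hχ1 : χ ≠ 1 := by
    obtain ⟨a, ha⟩ := quadraticChar_exists_neg_one hc
    intro h
    have h3 := congrArg (fun φ : MulChar (ZMod p) K => φ a) h
    have ha0 : a ≠ 0 := by
      rintro rfl
      rw [MulChar.map_zero] at ha
      norm_num at ha
    simp only [hχ, MulChar.ringHomComp_apply, ha] at h3
    rw [MulChar.one_apply ha0.isUnit] at h3
    norm_num at h3
  have hχ2 : χ.IsQuadratic := (quadraticChar_isQuadratic (ZMod p)).comp _
  have h3 := gaussSum_sq hχ1 hχ2 hψ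
  rw [ZMod.card] at h3
  generalize gaussSum χ _ = g at h3
  rcases hχ2 (-1) with h | h | h
  · exfalso
    have : IsUnit (-1 : ZMod p) := isUnit_neg_one
    exact (this.map χ).ne_zero h
  · rw [h, one_mul] at h3
    exact ⟨_, by rw [← h3, sq]⟩
  · rw [h, neg_one_mul] at h3
    obtain ⟨i, hi⟩ := sq_neg_one hN hζ
    refine ⟨i * g, ?_⟩
    have e : i * g * (i * g) = i * i * g ^ 2 := by ring
    rw [e, h3, ← hi]
    ring

theorem sq_nat (hN : N ≠ 0) (hζ : IsPrimitiveRoot ζ (8 * N)) {m : ℕ} (hm : m ≠ 0)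
    (h : ∀ p : ℕ, p.Prime → p ∣ m → p ∣ N) : IsSquare (m : K) := by
  have h1 := Nat.prod_primeFactorsList hm
  rw [← h1]
  push_cast
  have h2 : ∀ l : List ℕ, (∀ p ∈ l, p.Prime ∧ p ∣ N) →
      IsSquare ((l.map (fun p : ℕ => (p : K))).prod) := by
    intro l
    induction l with
    | nil => intro _; exact ⟨1, by simp⟩
    | cons p l ih =>
      intro hl
      rw [List.map_cons, List.prod_cons]
      obtain ⟨hp, hpN⟩ := hl p List.mem_cons_self
      exact (sq_prime hN hζ hp hpN).mul (ih fun q hq => hl q (List.mem_cons_of_mem _ hq))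
  have h3 := h2 m.primeFactorsList fun p hp =>
    ⟨Nat.prime_of_mem_primeFactorsList hp, h p (Nat.prime_of_mem_primeFactorsList hp)
      (Nat.dvd_of_mem_primeFactorsList hp)⟩
  convert h3

theorem sq_int (hN : N ≠ 0) (hζ : IsPrimitiveRoot ζ (8 * N)) {m : ℤ} (hm : m ≠ 0)
    (h : m ∣ N) : ∃ x : K, x ^ 2 = (m : K) := by
  have h1 := sq_nat hN hζ (m := m.natAbs) (Int.natAbs_ne_zero.2 hm) fun p _ hpm =>
    hpm.trans (Int.natAbs_dvd_natAbs.2 h)
  rcases Int.natAbs_eq m with h2 | h2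
  · obtain ⟨x, hx⟩ := h1
    refine ⟨x, ?_⟩
    rw [sq, ← hx, h2]
    simp
  · obtain ⟨x, hx⟩ := h1.mul (sq_neg_one hN hζ)
    refine ⟨x, ?_⟩
    rw [sq, ← hx, h2]
    simp

end

/-- every finite family of integers has square roots in a cyclotomic field -/
theorem roots_exist {k : ℕ} (m : Fin k → ℤ) (hm : ∀ i, m i ≠ 0) (n : ℕ) [NeZero n]
    (hn : ∀ i, 8 * m i ∣ (n : ℤ)) (L : Type) [Field L] [NumberField L]
    [IsCyclotomicExtension {n} ℚ L] (i : Fin k) : ∃ r : L, r ^ 2 = (m i : L) := by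
  have h8 : 8 ∣ n := by
    have : (8 : ℤ) ∣ n := (Dvd.intro _ rfl).trans (hn i)
    exact_mod_cast this
  obtain ⟨N, rfl⟩ := h8
  have hN : N ≠ 0 := by
    rintro rfl
    exact NeZero.ne (8 * 0) rfl
  obtain ⟨ζ, hζ⟩ := IsCyclotomicExtension.exists_isPrimitiveRoot ℚ L
    (Set.mem_singleton (8 * N)) (by omega)
  have h1 : m i ∣ (N : ℤ) := by
    have := hn i
    push_cast at this
    exact (mul_dvd_mul_iff_left (by norm_num)).1 this
  exact sq_int hN hζ (hm i) h1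

end Pool.Agent.H3.MQ
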