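import Pool.Graph.R_pool_sql_team_seeded_63374d34.N856.MT.Eng
import Pool.Graph.R_pool_sql_team_seeded_63374d34.N849.MT.NV
import Pool.Graph.R_pool_sql_team_seeded_63374d34.N432.MT.TWSC
import Pool.Graph.R_pool_sql_team_seeded_63374d34.N955.MT.EUL
import Pool.Graph.R_pool_sql_team_seeded_63374d34.N400.MT.QCH
import Pool.Graph.R_pool_sql_team_seeded_63374d34.N55.MT.QG
import Pool.Graph.R_pool_sql_team_seeded_63374d34.N974.Gen.Lfin

/-!
# The L-functions over multiquadratic fields: the factors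
-/

set_option autoImplicit false

open NumberField IsDedekindDomain

namespace Pool.Agent.H3.MQ

open Pool.Agent.N856.MT
open Pool.Agent.N849.MT
open Pool.Agent.H341R2.EC (IsMinAt)
open Pool.Agent.R433.MD (lf LL LL_ne_zero)
open H300.HW (YY)

open scoped Classical

/-- the bound of Hasse for the good primes -/
def HB (a b : ℤ) : Prop := ∀ p : ℕ, p.Prime → ¬ ((p : ℤ) ∣ 2 * (-4 * a ^ 3 - 27 * b ^ 2)) →
  |((tp a b p : ℤ) : ℝ)| ≤ 2 * Real.sqrt p

theorem xf_tp (a b : ℤ) (p : ℕ) (s : ℂ) : xf a b p s =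
    1 - (tp a b p : ℂ) * (p : ℂ) ^ (-s) + (p : ℂ) ^ (1 - 2 * s) := by
  unfold xf tp cd
  push_cast
  ring

theorem xf_ne' {a b : ℤ} (h : HB a b) {p : ℕ} (hp : p.Prime)
    (hg : ¬ ((p : ℤ) ∣ 2 * (-4 * a ^ 3 - 27 * b ^ 2))) {s : ℂ} (hs : 3 / 2 < s.re) :
    xf a b p s ≠ 0 := by
  have hp1 : (1 : ℝ) < p := by exact_mod_cast hp.one_lt
  have hp0 : (p : ℂ) ≠ 0 := by exact_mod_cast hp.ne_zero
  have hY : ‖(p : ℂ) ^ (-s)‖ ≤ (p : ℝ)⁻¹ := by
    rw [Complex.norm_natCast_cpow_of_pos hp.pos, ← Real.rpow_neg_one]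
    refine Real.rpow_le_rpow_of_exponent_le hp1.le ?_
    rw [Complex.neg_re]
    linarith
  have h1 := Pool.Agent.N974.Gen.quad_ne hp1 (h p hp hg) hY
  have e : (p : ℂ) ^ (1 - 2 * s) = (p : ℂ) * ((p : ℂ) ^ (-s)) ^ 2 := by
    rw [show (1 - 2 * s : ℂ) = 1 + (-s + -s) by ring, Complex.cpow_add _ _ hp0, Complex.cpow_one,
      Complex.cpow_add _ _ hp0]
    ring
  rw [xf_tp, e]
  intro h0
  apply h1
  rw [← h0]
  push_cast
  ring

/-- the L-function without the primes which divide `D` -/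
theorem exG {a b : ℤ} (hB : HB a b) (hL : LZ a b) {D : ℕ} (hD : D ≠ 0)
    (hdvd : 2 * (-4 * a ^ 3 - 27 * b ^ 2) ∣ (D : ℤ)) :
    ∃ G : ℂ → ℂ, Differentiable ℂ G ∧ G 1 ≠ 0 ∧ ∀ s : ℂ, 3 / 2 < s.re →
      HasProd (fun p : Nat.Primes => if (p : ℕ) ∣ D then (1 : ℂ) else
        (eu (tp a b p) 1 p s)⁻¹) (G s) := by
  obtain ⟨-, F, hFd, hF, hF1⟩ := hL
  let g : ℂ → ℕ → ℂ := fun s p =>
    if p.Prime ∧ ¬ ((p : ℤ) ∣ 2 * (-4 * a ^ 3 - 27 * b ^ 2)) ∧ p ∣ D then xf a b p s else 1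
  let P : ℂ → ℂ := fun s => ∏ p ∈ D.primeFactors, g s p
  have hPd : Differentiable ℂ P := by
    intro s
    apply DifferentiableAt.fun_finsetProd
    intro p hp
    have hp0 : p ≠ 0 := (Nat.prime_of_mem_primeFactors hp).ne_zero
    by_cases h : p.Prime ∧ ¬ ((p : ℤ) ∣ 2 * (-4 * a ^ 3 - 27 * b ^ 2)) ∧ p ∣ D
    · simp only [g, if_pos h]
      exact xf_diff a b p hp0 s
    · simp only [g, if_neg h]
      exact differentiableAt_const _
  have hP1 : P 1 ≠ 0 := by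
    apply Finset.prod_ne_zero_iff.2
    intro p hp
    have hp0 : p ≠ 0 := (Nat.prime_of_mem_primeFactors hp).ne_zero
    by_cases h : p.Prime ∧ ¬ ((p : ℤ) ∣ 2 * (-4 * a ^ 3 - 27 * b ^ 2)) ∧ p ∣ D
    · simp only [g, if_pos h]
      exact xf_one a b p hp0
    · simp only [g, if_neg h]
      exact one_ne_zero
  have hgP : ∀ s, HasProd (g s) (P s) := by
    intro s
    apply hasProd_prod_of_ne_finset_one
    intro p hp
    have h : ¬ (p.Prime ∧ ¬ ((p : ℤ) ∣ 2 * (-4 * a ^ 3 - 27 * b ^ 2)) ∧ p ∣ D) := by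
      rintro ⟨h1, _, h3⟩
      exact hp (Nat.mem_primeFactors.2 ⟨h1, h3, hD⟩)
    simp only [g, if_neg h]
  refine ⟨fun s => F s * P s, hFd.mul hPd, mul_ne_zero hF1 hP1, fun s hs => ?_⟩
  have h1 := (hF s hs).mul (hgP s)
  have h2 : Function.Injective (fun p : Nat.Primes => (p : ℕ)) := Nat.Primes.coe_nat_injective
  rw [← h2.hasProd_iff] at h1
  · convert h1 using 1
    funext p
    have hp : (p : ℕ).Prime := p.2
    simp only [Function.comp]
    by_cases hpD : (p : ℕ) ∣ D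
    · rw [if_pos hpD]
      by_cases hgood : ¬ (((p : ℕ) : ℤ) ∣ 2 * (-4 * a ^ 3 - 27 * b ^ 2))
      · rw [if_pos ⟨hp, hgood⟩]
        simp only [g]
        rw [if_pos ⟨hp, hgood, hpD⟩]
        exact (inv_mul_cancel₀ (xf_ne' hB hp hgood hs)).symm
      · rw [if_neg (fun h => hgood h.2)]
        simp only [g]
        rw [if_neg (fun h => hgood h.2.1), one_mul]
    · rw [if_neg hpD]
      have hgood : ¬ (((p : ℕ) : ℤ) ∣ 2 * (-4 * a ^ 3 - 27 * b ^ 2)) := by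
        intro h
        exact hpD (by exact_mod_cast h.trans hdvd)
      rw [if_pos ⟨hp, hgood⟩]
      simp only [g]
      rw [if_neg (fun h => hpD h.2.2), mul_one]
      congr 1
      unfold eu tp
      push_cast
      ring
  · intro p hp
    have hp' : ¬ p.Prime := fun h => hp ⟨⟨p, h⟩, rfl⟩
    simp only [g]
    rw [if_neg (fun h => hp' h.1), if_neg (fun h => hp' h.1), one_mul]

end Pool.Agent.H3.MQ
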