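import Pool.Graph.R_pool_sql_team_seeded_63374d34.N348.MT.PTS
import Pool.Graph.R_pool_sql_team_seeded_63374d34.N817.MI.A
import Pool.Graph.R_pool_sql_team_seeded_63374d34.N55.MT.QG

/-!
# The points over a multiquadratic field
-/

set_option autoImplicit false

open NumberField IsDedekindDomain

namespace Pool.Agent.H3.MQ

open Pool.Agent.N856.MT

open scoped Classical

/-- the points whose double lies in a finite set -/
theorem half_fin {A : Type} [AddCommGroup A] (h2 : {P : A | P + P = 0}.Finite) (S : Set A)
    (hS : S.Finite) : {P : A | P + P ∈ S}.Finite := by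
  have h3 : ((fun P : A => P + P) ⁻¹' S).Finite := by
    refine Set.Finite.preimage' hS fun R _ => ?_
    by_cases hR : ∃ P₀ : A, P₀ + P₀ = R
    · obtain ⟨P₀, h0⟩ := hR
      refine (h2.image fun Q => P₀ + Q).subset ?_
      intro P hP
      refine ⟨P - P₀, ?_, add_sub_cancel P₀ P⟩
      have h4 : P + P = R := hP
      show (P - P₀) + (P - P₀) = 0
      have : (P - P₀) + (P - P₀) = (P + P) - (P₀ + P₀) := by abel
      rw [this, h4, h0, sub_self]
    · refine Set.Finite.subset Set.finite_empty ?_
      intro P hP
      exact hR ⟨P, hP⟩
  exact h3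

/-- an abelian group with an action of an elementary abelian `2`-group -/
theorem inv_fin {A : Type} [AddCommGroup A] {G : Type} [Group G] [Finite G]
    (hg : ∀ g : G, g * g = 1) (α : G → A →+ A) (h1 : ∀ P, α 1 P = P)
    (hm : ∀ g h P, α (g * h) P = α g (α h P)) (h2 : {P : A | P + P = 0}.Finite)
    (he : ∀ χ : G →* ℤˣ, {P : A | ∀ g, α g P = ((χ g : ℤˣ) : ℤ) • P}.Finite) : Finite A := by
  have _i : Fintype G := Fintype.ofFinite G
  have hcomm : ∀ g h : G, g * h = h * g := by
    intro g h
    have e1 : ∀ x : G, x⁻¹ = x := fun x => inv_eq_of_mul_eq_one_left (hg x)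
    have e2 := e1 (g * h)
    rw [mul_inv_rev, e1, e1] at e2
    exact e2.symm
  -- the points which are eigenvectors for all the elements of a set
  let X : Finset G → Set A := fun S => {P | ∀ g ∈ S, α g P = P ∨ α g P = -P}
  have hall : (X Finset.univ).Finite := by
    refine (h2.union (Set.finite_iUnion he)).subset ?_
    intro P hP
    by_cases h0 : P + P = 0
    · exact Or.inl h0
    · right
      have hne : P ≠ -P := fun h => h0 (by
        nth_rewrite 1 [h]
        exact neg_add_cancel P)
      have hs : ∀ g : G, ∃ u : ℤˣ, α g P = ((u : ℤˣ) : ℤ) • P := by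
        intro g
        rcases hP g (Finset.mem_univ g) with h | h
        · exact ⟨1, by rw [h, Units.val_one, one_smul]⟩
        · exact ⟨-1, by rw [h, Units.val_neg, Units.val_one, neg_one_smul]⟩
      choose u hu using hs
      have huniq : ∀ v w : ℤˣ, ((v : ℤˣ) : ℤ) • P = ((w : ℤˣ) : ℤ) • P → v = w := by
        intro v w h
        rcases Int.units_eq_one_or v with hv | hv <;> rcases Int.units_eq_one_or w with hw | hw <;>
          rw [hv, hw] at h ⊢
        · exfalso
          apply hne
          simpa using h
        · exfalso
          apply hne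
          have : -P = P := by simpa using h
          exact this.symm
      refine Set.mem_iUnion.2 ⟨⟨⟨u, ?_⟩, ?_⟩, fun g => hu g⟩
      · apply huniq
        rw [← hu, h1, Units.val_one, one_smul]
      · intro g h
        show u (g * h) = u g * u h
        apply huniq
        rw [← hu, hm, hu h, map_zsmul, hu g, Units.val_mul, smul_smul, mul_comm]
  have step : ∀ (S : Finset G) (t : G), (X (insert t S)).Finite → (X S).Finite := by
    intro S t hS
    refine (half_fin h2 _ (hS.image2 (fun P Q => P + Q) hS)).subset ?_
    intro P hP
    have htt : α t (α t P) = P := by rw [← hm, hg, h1]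
    refine ⟨P + α t P, ?_, P - α t P, ?_, ?_⟩
    · intro g hgS
      rw [Finset.mem_insert] at hgS
      rcases hgS with rfl | hgS
      · left
        rw [map_add, htt, add_comm]
      · have e : α g (α t P) = α t (α g P) := by rw [← hm, ← hm, hcomm]
        rcases hP g hgS with h | h
        · left
          rw [map_add, e, h]
        · right
          rw [map_add, e, h, map_neg, neg_add]
    · intro g hgS
      rw [Finset.mem_insert] at hgS
      rcases hgS with rfl | hgS
      · right
        rw [map_sub, htt, neg_sub]
      · have e : α g (α t P) = α t (α g P) := by rw [← hm, ← hm, hcomm]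
        rcases hP g hgS with h | h
        · left
          rw [map_sub, e, h]
        · right
          rw [map_sub, e, h, map_neg]
          abel
    · show P + α t P + (P - α t P) = P + P
      abel
  have hX : ∀ (T S : Finset G), (X (T ∪ S)).Finite → (X S).Finite := by
    intro T
    induction T using Finset.induction_on with
    | empty =>
      intro S h
      rwa [Finset.empty_union] at h
    | insert t T _ ih =>
      intro S h
      rw [Finset.insert_union] at h
      exact ih S (step _ t h)
  have h5 : (X ∅).Finite := by
    apply hX Finset.univ ∅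
    rw [Finset.union_empty]
    exact hall
  have h6 : (Set.univ : Set A).Finite := h5.subset fun P _ g hg => absurd hg (Finset.notMem_empty g)
  exact Set.finite_univ_iff.1 h6

/-- **the points over a multiquadratic field** -/
theorem pts0 {K : Type} [Field K] [NumberField K] [IsGalois ℚ K]
    (hexp : ∀ σ : K ≃ₐ[ℚ] K, σ * σ = 1) {a b : ℤ} (hab : 4 * a ^ 3 + 27 * b ^ 2 ≠ 0)
    (hfin : ∀ c : ℤ, Squarefree c → (∃ x : K, x ^ 2 = (c : K)) →
      Finite (EK ℚ (a * c ^ 2) (b * c ^ 3)).toAffine.Point) :
    Finite (EK K a b).toAffine.Point := by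
  rw [← Pool.Agent.N348.MT.WK_eq K a b]
  refine inv_fin hexp (fun σ => Pool.Agent.N348.MT.act σ) Pool.Agent.N348.MT.act_one
    Pool.Agent.N348.MT.act_mul ?_ ?_
  · have h := Pool.Agent.N817.MI.two_fin ((EK ℚ a b).baseChange K) a b (by
      have := Pool.Agent.N348.MT.WK_eq K a b
      exact this)
    convert h
  · intro χ
    have h := Pool.Agent.N348.MT.eig_finite (K := K) Pool.Agent.N55.MT.t_QG hab hfin χ
    convert h

end Pool.Agent.H3.MQ
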