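import Pool.Graph.R_seed8.TH841.NF.Hom
import Pool.Graph.R_seed8.Y667.BKP.Main
import Pool.Agent.H3.S15.Tr
import Pool.Agent.H3.MQ.P0

/-!
# Selmer groups over multiquadratic fields
-/

set_option autoImplicit false

open NumberField

namespace Pool.Agent.H3.MQ

open Pool.Agent.N856.MT (EK)
open Pool.Agent.Y700 (VR)
open Pool.Agent.TH841.NF (Sc tw thS thS_ker Qb)
open Pool.Agent.H3.S15 (NI niVR)

open scoped Classical

/-- a squarefree number and a square -/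
theorem sqf_sq (D : ℤ) (hD : D ≠ 0) : ∃ c k : ℤ, Squarefree c ∧ k ≠ 0 ∧ D = c * k ^ 2 := by
  obtain ⟨a, b, hab, ha⟩ := Nat.sq_mul_squarefree D.natAbs
  have hb : b ≠ 0 := by
    rintro rfl
    rw [zero_pow two_ne_zero, zero_mul] at hab
    exact hD (Int.natAbs_eq_zero.1 hab.symm)
  rcases Int.natAbs_eq D with h | h
  · refine ⟨a, b, Int.squarefree_natCast.2 ha, by exact_mod_cast hb, ?_⟩
    rw [h, ← hab]
    push_cast
    ring
  · refine ⟨-a, b, ?_, by exact_mod_cast hb, ?_⟩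
    · rw [← Int.squarefree_natAbs, Int.natAbs_neg, Int.natAbs_natCast]
      exact ha
    · rw [h, ← hab]
      push_cast
      ring

theorem EK_disc (a b : ℤ) : (EK ℚ a b).Δ = ((-16 * (4 * a ^ 3 + 27 * b ^ 2) : ℤ) : ℚ) := by
  simp only [WeierstrassCurve.Δ, WeierstrassCurve.b₂, WeierstrassCurve.b₄,
    WeierstrassCurve.b₆, WeierstrassCurve.b₈, EK]
  push_cast
  ring

theorem EK_ne {a b : ℤ} (h : 4 * a ^ 3 + 27 * b ^ 2 ≠ 0) : (EK ℚ a b).Δ ≠ 0 := by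
  rw [EK_disc, Int.cast_ne_zero]
  exact mul_ne_zero (by norm_num) h

/-- the change of variables -/
theorem vr_scale {A B A' B' g : ℚ} (hg : g ≠ 0) (ha : A = A' * g ^ 4) (hb : B = B' * g ^ 6) :
    VR (⟨0, 0, 0, A, B⟩ : WeierstrassCurve ℚ) (⟨0, 0, 0, A', B'⟩ : WeierstrassCurve ℚ) g 0 0 0 := by
  refine ⟨hg, ?_, ?_, ?_, ?_, ?_⟩
  · ring
  · ring
  · ring
  · show g ^ 4 * A' = _
    rw [ha]
    ring
  · show g ^ 6 * B' = _
    rw [hb]
    ring

/-- finiteness is invariant -/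
theorem fin_scale {A B A' B' g : ℚ} (hg : g ≠ 0) (ha : A = A' * g ^ 4) (hb : B = B' * g ^ 6)
    (hD : (⟨0, 0, 0, A', B'⟩ : WeierstrassCurve ℚ).Δ ≠ 0)
    (hf : Finite (⟨0, 0, 0, A', B'⟩ : WeierstrassCurve ℚ).toAffine.Point) :
    Finite (⟨0, 0, 0, A, B⟩ : WeierstrassCurve ℚ).toAffine.Point :=
  Finite.of_equiv _ (VR.equiv (vr_scale hg ha hb) hD).toEquiv

variable {F : Type} [Field F] [NumberField F]

/-- the algebraic closures -/
noncomputable def eQ (F : Type) [Field F] [NumberField F] : AlgebraicClosure F ≃+* Qb := by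
  have : Algebra.IsAlgebraic ℚ (AlgebraicClosure F) := Algebra.IsAlgebraic.trans ℚ F _
  have : IsAlgClosure ℚ (AlgebraicClosure F) := ⟨inferInstance, inferInstance⟩
  exact (IsAlgClosure.equiv ℚ (AlgebraicClosure F) (AlgebraicClosure ℚ)).toRingEquiv

/-- the hypothesis on the twists -/
def Tw0 (F : Type) [Field F] (a b : ℤ) (P : ℤ → ℤ → Prop) : Prop :=
  ∀ c : ℤ, Squarefree c → (∃ x : F, x ^ 2 = (c : F)) → ∃ a' b' g : ℤ, g ≠ 0 ∧
    a * c ^ 2 = a' * g ^ 4 ∧ b * c ^ 3 = b' * g ^ 6 ∧ P a' b'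

theorem disc_tw {a b a' b' c g : ℤ} (h0 : 4 * a ^ 3 + 27 * b ^ 2 ≠ 0) (hc : c ≠ 0)
    (ha : a * c ^ 2 = a' * g ^ 4) (hb : b * c ^ 3 = b' * g ^ 6) :
    4 * a' ^ 3 + 27 * b' ^ 2 ≠ 0 := by
  intro h
  have e : (4 * a ^ 3 + 27 * b ^ 2) * c ^ 6 = (4 * a' ^ 3 + 27 * b' ^ 2) * g ^ 12 := by
    have e1 : (4 * a ^ 3 + 27 * b ^ 2) * c ^ 6 = 4 * (a * c ^ 2) ^ 3 + 27 * (b * c ^ 3) ^ 2 := by
      ring
    rw [e1, ha, hb]
    ring
  rw [h, zero_mul] at e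
  exact mul_ne_zero h0 (pow_ne_zero 6 hc) e

/-- **no divisible classes in the Selmer group** -/
theorem h1f0 {a b : ℤ} (h0 : 4 * a ^ 3 + 27 * b ^ 2 ≠ 0) {n : ℕ} {r : Fin n → F} {d : Fin n → ℤ}
    (hr : ∀ i, r i ^ 2 = (d i : F)) (hd : ∀ i, d i ≠ 0)
    (hgen : IntermediateField.adjoin ℚ (Set.range r) = ⊤)
    (hfin : Finite (EK F a b).toAffine.Point)
    (hs : Tw0 F a b fun a' b' => ∀ x : Pool.Agent.TH841.SH.D.Sha (EK ℚ a' b'), x + x = 0 → x = 0) :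
    ∀ x : Pool.Agent.Y667.BKP.H1f 2 (EK F a b), x = 0 := by
  have hW : Sc (algebraMap ℚ F) 1 (EK ℚ a b) (EK F a b) := by
    refine ⟨one_ne_zero, ?_, ?_, ?_, ?_, ?_⟩
    · simp [EK]
    · simp [EK]
    · simp [EK]
    · simp [EK]
    · simp [EK]
  have hr' : ∀ i, r i ^ 2 = algebraMap ℚ F ((d i : ℤ) : ℚ) := by
    intro i
    rw [hr i, eq_ratCast, Rat.cast_intCast]
  have hd' : ∀ i, ((d i : ℤ) : ℚ) ≠ 0 := fun i => by exact_mod_cast hd i
  -- the twists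
  have key : ∀ T : Finset (Fin n),
      ∀ x : Pool.Agent.TH841.SH.D.Sha (tw (∏ i ∈ T, ((d i : ℤ) : ℚ)) (EK ℚ a b)),
        x + x = 0 → x = 0 := by
    intro T
    have hD0 : ∏ i ∈ T, d i ≠ 0 := Finset.prod_ne_zero_iff.2 fun i _ => hd i
    obtain ⟨c, k, hc, hk, hck⟩ := sqf_sq _ hD0
    have hc0 := hc.ne_zero
    have hkF : (k : F) ≠ 0 := by exact_mod_cast hk
    obtain ⟨a', b', g, hg, ha, hb, hS⟩ := hs c hc ⟨(∏ i ∈ T, r i) / k, by
      rw [div_pow, ← Finset.prod_pow, Finset.prod_congr rfl fun i _ => hr i,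
        div_eq_iff (pow_ne_zero 2 hkF)]
      have := congrArg (fun z : ℤ => (z : F)) hck
      push_cast at this
      exact this⟩
    have hΔ := disc_tw h0 hc0 ha hb
    -- the change of variables
    have e1 : tw (∏ i ∈ T, ((d i : ℤ) : ℚ)) (EK ℚ a b) =
        (⟨0, 0, 0, (c * k ^ 2 : ℚ) ^ 2 * a, (c * k ^ 2 : ℚ) ^ 3 * b⟩ : WeierstrassCurve ℚ) := by
      have : (∏ i ∈ T, ((d i : ℤ) : ℚ)) = c * k ^ 2 := by
        rw [← Int.cast_prod, hck]
        push_cast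
        ring
      rw [this]
      unfold tw EK
      rw [mul_zero]
    have e2 : EK ℚ a' b' = (⟨0, 0, 0, a', b'⟩ : WeierstrassCurve ℚ) := rfl
    have ha' : (a : ℚ) * c ^ 2 = a' * g ^ 4 := by exact_mod_cast ha
    have hb' : (b : ℚ) * c ^ 3 = b' * g ^ 6 := by exact_mod_cast hb
    have hV := vr_scale (A := (c * k ^ 2 : ℚ) ^ 2 * a) (B := (c * k ^ 2 : ℚ) ^ 3 * b) (A' := a')
      (B' := b') (g := g * k) (by exact_mod_cast mul_ne_zero hg hk)
      (by linear_combination (k : ℚ) ^ 4 * ha') (by linear_combination (k : ℚ) ^ 6 * hb')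
    rw [← e1, ← e2] at hV
    have hI := (niVR hV (EK_ne hΔ)).eSha
    intro x hx
    have h2 : hI.symm x = 0 := by
      apply hS
      rw [← map_add, hx, map_zero]
    exact (AddEquiv.map_eq_zero_iff hI.symm).1 h2
  refine Pool.Agent.Y667.BKP.h1f_zero Nat.prime_two hfin n ?_
  intro k x hx
  refine thS_ker hW rfl rfl (eQ F) hr' hd' hgen x fun T => ?_
  have h3 : (2 ^ k : ℕ) • thS hW rfl rfl (eQ F) hr' hd' hgen T x = 0 := by
    rw [← map_nsmul, hx, map_zero]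
  clear hx
  have h4 : ∀ (k : ℕ) (y : Pool.Agent.TH841.SH.D.Sha (tw (∏ i ∈ T, ((d i : ℤ) : ℚ)) (EK ℚ a b))),
      (2 ^ k : ℕ) • y = 0 → y = 0 := by
    intro k
    induction k with
    | zero =>
      intro y hy
      rwa [pow_zero, one_smul] at hy
    | succ k ih =>
      intro y hy
      apply ih
      apply key T
      rw [← two_nsmul, smul_smul, mul_comm, ← pow_succ]
      exact hy
  exact h4 k _ h3

/-- **the points** -/
theorem fin0 [IsGalois ℚ F] {a b : ℤ} (h0 : 4 * a ^ 3 + 27 * b ^ 2 ≠ 0)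
    (hexp : ∀ σ : F ≃ₐ[ℚ] F, σ * σ = 1)
    (hs : Tw0 F a b fun a' b' => Finite (EK ℚ a' b').toAffine.Point) :
    Finite (EK F a b).toAffine.Point := by
  refine pts0 hexp h0 ?_
  intro c hc hx
  obtain ⟨a', b', g, hg, ha, hb, hf⟩ := hs c hc hx
  have hΔ := EK_ne (disc_tw h0 hc.ne_zero ha hb)
  have := fin_scale (A := ((a * c ^ 2 : ℤ) : ℚ)) (B := ((b * c ^ 3 : ℤ) : ℚ)) (A' := a') (B' := b')
    (g := g) (by exact_mod_cast hg) (by rw [ha]; push_cast; ring) (by rw [hb]; push_cast; ring)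
    hΔ hf
  exact this

end Pool.Agent.H3.MQ
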