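import Pool.Agent.H3.L17.BSD
import Pool.Agent.H3.MQ.G
import Pool.Agent.H3.MQ.S0
import Pool.Graph.R_pool_sql_team_seeded_63374d34.N974.PG.EvenS
import Pool.Graph.R_pool_sql_team_seeded_63374d34.N809.M17.Mod17

/-!
# The curves of the family of conductor `17` over `ℚ`, including the curve itself
-/

set_option autoImplicit false

open UpperHalfPlane MatrixGroups CongruenceSubgroup ZMod

namespace Pool.Agent.H3.MQ

open Pool.Agent.N974
open Pool.Agent.N974.Gen (II Eigen symbP exists_fG ap17_2 ap17_3 ap17_17 cnt17 E17 disc17 bad17 good17)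
open Pool.Agent.N809.M17 (eigen17 f17)
open Pool.Agent.W97.MT (ap)
open Pool.Agent.Y687 (RankBSD rankBSD)
open Pool.Agent.N856.MT (EK tp LZ S_TW)
open Pool.Agent.N919.BS (Rt17)
open Pool.Agent.H3.L17 (Cri disc)

open scoped Classical

/-- the central value at level `17` is not zero -/
theorem s0_ne : (II f17 0).re ≠ 0 := by
  have h := eigen17
  have h1 := Pool.Agent.N974.PG.re_ne h (by
    show ap E17 2 ≠ 3
    rw [ap17_2]
    norm_num)
  have P := symbP h (by norm_num : 1 < 17)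
  have hh := P.hecke 3 Nat.prime_three (by norm_num) 0
  have e0 : ap E17 3 = 0 := ap17_3
  have hm : (II f17 (2 / 3)).re = (II f17 (1 / 3)).re := by
    have a1 := P.neg (1 / 3)
    have a2 := P.per (-(1 / 3))
    rw [← a1, ← a2]
    norm_num
  rw [Finset.sum_range_succ, Finset.sum_range_succ, Finset.sum_range_succ,
    Finset.sum_range_zero] at hh
  simp only [e0] at hh
  norm_num at hh hm
  intro h0
  apply h1
  norm_num
  rw [h0] at hh ⊢
  linarith

theorem base_bsd (hfin : Pool.Agent.N975.S17.FinPts 1) :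
    RankBSD (-91 * 1 ^ 2) (-330 * 1 ^ 3) := by
  have hχ : (1 : DirichletCharacter ℂ 1).IsPrimitive := by
    rw [DirichletCharacter.isPrimitive_def]
    exact DirichletCharacter.conductor_one
  obtain ⟨F, g1, k1, k2, k3, k4⟩ := exists_fG eigen17 (-91) (-330) disc17 bad17 1
    (1 : DirichletCharacter ℂ 1) hχ (fun _ => 1)
    (fun p hp => by
      rw [Subsingleton.elim ((p : ZMod 1)) 1]
      simp)
    (fun p hp => Or.inr (Or.inl rfl))
    (fun p hp _ h => by
      exfalso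
      rw [Int.natAbs_one, Nat.dvd_one] at h
      exact hp.one_lt.ne' h)
    (fun p hp hb _ => by
      refine ⟨one_pow 2, ?_⟩
      rw [one_pow, one_pow, mul_one, mul_one, one_mul]
      exact good17 hp hb)
  refine rankBSD k1 k2 (k3 ?_) hfin
  intro h0
  rw [h0, mul_zero] at k4
  rw [Fintype.sum_subsingleton _ (1 : (ZMod 1)ˣ)] at k4
  have e1 : II f17 ((((1 : (ZMod 1)ˣ) : ZMod 1).val : ℚ) / ((1 : ℕ) : ℚ)) = II f17 0 := by
    congr 1
    have : (((1 : (ZMod 1)ˣ) : ZMod 1)).val = 0 := by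
      have := ZMod.val_lt (((1 : (ZMod 1)ˣ) : ZMod 1))
      omega
    rw [this]
    norm_num
  rw [e1] at k4
  have e2 : (1 : DirichletCharacter ℂ 1)⁻¹ ((1 : (ZMod 1)ˣ) : ZMod 1) = 1 := by
    rw [inv_one]
    simp
  rw [e2, one_mul] at k4
  apply s0_ne
  rw [← k4]
  rfl

/-- **the rank form for all the members of the family** -/
theorem bsd17 {d : ℤ} (hd : Squarefree d) (hR : Rt17 d) (hC : Cri (disc d)) :
    RankBSD (-91 * d ^ 2) (-330 * d ^ 3) := by
  by_cases h1 : d = 1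
  · subst h1
    exact base_bsd (Pool.Agent.H3.L17.finPts hd hC)
  · exact Pool.Agent.H3.L17.bsd hd h1 hR hC

theorem lz_of {a b : ℤ} (h0 : 4 * a ^ 3 + 27 * b ^ 2 ≠ 0) (h : RankBSD a b) : LZ a b := by
  obtain ⟨F, h1, h2, h3, -⟩ := h
  refine ⟨h0, F, h1, ?_, ?_⟩
  · intro s hs
    convert h2 s hs
  · exact (h1.analyticAt 1).analyticOrderAt_eq_zero.1 h3

theorem disc17_ne {d : ℤ} (hd : d ≠ 0) : 4 * (-91 * d ^ 2) ^ 3 + 27 * (-330 * d ^ 3) ^ 2 ≠ 0 := by
  have e : 4 * (-91 * d ^ 2) ^ 3 + 27 * (-330 * d ^ 3) ^ 2 = -73984 * d ^ 6 := by ring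
  rw [e]
  exact mul_ne_zero (by norm_num) (pow_ne_zero 6 hd)

/-- the bound of Hasse -/
theorem hb17 {d : ℤ} (hd : d ≠ 0) : HB (-91 * d ^ 2) (-330 * d ^ 3) := by
  intro p hp hg
  have e : 2 * (-4 * (-91 * d ^ 2) ^ 3 - 27 * (-330 * d ^ 3) ^ 2) = 2 ^ 9 * 17 ^ 2 * d ^ 6 := by ring
  rw [e] at hg
  have hp2 : p ≠ 2 := by
    rintro rfl
    exact hg ((dvd_pow_self 2 (by norm_num)).mul_right _ |>.mul_right _)
  have hp17 : ¬ p ∣ 17 := by
    intro h
    have := (Nat.prime_dvd_prime_iff_eq hp (by norm_num : Nat.Prime 17)).1 h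
    subst this
    exact hg (((dvd_pow_self (17 : ℤ) (by norm_num)).mul_left _).mul_right _)
  have hpd : ¬ (p : ℤ) ∣ d := fun h => hg ((dvd_pow h (by norm_num)).mul_left _)
  have hTW : S_TW := Pool.Agent.N432.MT.t_TW
  rw [hTW (-91) (-330) d p hp hp2 hpd]
  have h1 : tp (-91) (-330) p = ap E17 p := cnt17 hp hp2
  have h2 : Int.gcd d p = 1 := by
    rw [Int.gcd_comm]
    exact Int.isCoprime_iff_gcd_eq_one.1
      (((Nat.prime_iff_prime_int.1 hp).coprime_iff_not_dvd).2 hpd)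
  have h3 := jacobiSym.sq_one h2
  have h4 : |((jacobiSym d p * tp (-91) (-330) p : ℤ) : ℝ)| = |((tp (-91) (-330) p : ℤ) : ℝ)| := by
    have : jacobiSym d p = 1 ∨ jacobiSym d p = -1 := Int.isUnit_iff.1 (IsUnit.of_pow_eq_one h3 two_ne_zero)
    rcases this with h | h <;> rw [h] <;> push_cast <;> simp
  rw [h4, h1]
  exact eigen17.good p hp hp17

end Pool.Agent.H3.MQ
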