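import Pool.Agent.H3.MQ.R17
import Pool.Agent.H3.MQ.L1

/-!
# Counting real quadratic fields
-/

set_option autoImplicit false

open scoped Classical

namespace Pool.Agent.H3.MQ

open Finset Filter
open Pool.Agent.N919.BS (NN NS NF HG Rt17 Fund core)
open Pool.Agent.N916.MO (G17)
open Pool.Agent.Y703.CQ (c2)
open Pool.Agent.H3.L17 (Cri disc)

/-- the squarefree integers `d`, `|disc d| ≤ X`, with the property `P` -/
noncomputable def numD (P : ℤ → Prop) (X : ℕ) : ℕ :=
  ((Icc (-(X : ℤ)) X).filter fun d => |disc d| ≤ X ∧ Squarefree d ∧ P d).card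

/-- the squarefree integers `m > 1` with `disc m ≤ X` and the property `P` -/
noncomputable def numR (P : ℤ → Prop) (X : ℕ) : ℕ :=
  ((Icc (2 : ℤ) X).filter fun m => disc m ≤ X ∧ Squarefree m ∧ P m).card

theorem core_disc (d : ℤ) (hd : Squarefree d) : core (disc d) = d := by
  have h4 := Pool.Agent.H3.L17.mod_two hd
  unfold core disc
  split_ifs <;> omega

theorem numD_eq (P : ℤ → Prop) : numD P = NF P := by
  funext X
  unfold numD NF
  refine card_bij (fun d _ => disc d) ?_ ?_ ?_
  · intro d hd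
    rw [mem_filter, mem_Icc] at hd ⊢
    obtain ⟨-, h1, h2, h3⟩ := hd
    rw [abs_le] at h1
    refine ⟨h1, ?_, by rw [core_disc d h2]; exact h3⟩
    have h4 := Pool.Agent.H3.L17.mod_two h2
    unfold Fund disc
    by_cases c1 : d % 4 = 1
    · left
      rw [if_pos c1]
      exact ⟨h2, c1⟩
    · right
      rw [if_neg c1]
      exact ⟨d, rfl, h2, by omega⟩
  · intro d hd e he h
    rw [mem_filter] at hd he
    have := congrArg core h
    rwa [core_disc d hd.2.2.1, core_disc e he.2.2.1] at this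
  · intro D hD
    rw [mem_filter, mem_Icc] at hD
    obtain ⟨h1, h2, h3⟩ := hD
    rcases h2 with ⟨h2, h4⟩ | ⟨m, h4, h2, h5⟩
    · have e : disc D = D := by
        unfold disc
        rw [if_pos h4]
      refine ⟨D, ?_, e⟩
      rw [mem_filter, mem_Icc, e, abs_le]
      refine ⟨h1, h1, h2, ?_⟩
      rw [← core_disc D h2, e]
      exact h3
    · have e : disc m = D := by
        unfold disc
        rw [if_neg (by omega), h4]
      refine ⟨m, ?_, e⟩
      rw [mem_filter, mem_Icc, e, abs_le]
      refine ⟨by omega, h1, h2, ?_⟩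
      rw [← core_disc m h2, e]
      exact h3

theorem numD_congr {P Q : ℤ → Prop} (h : ∀ d, Squarefree d → (P d ↔ Q d)) : numD P = numD Q := by
  funext X
  unfold numD
  congr 1
  ext d
  rw [mem_filter, mem_filter]
  constructor
  · rintro ⟨h0, h1, h2, h3⟩
    exact ⟨h0, h1, h2, (h d h2).1 h3⟩
  · rintro ⟨h0, h1, h2, h3⟩
    exact ⟨h0, h1, h2, (h d h2).2 h3⟩

theorem numD_pos {P Q : ℤ → Prop} (hQ : ∀ d, Q d ↔ 0 < d ∧ P d) (h1 : P 1) {X : ℕ} (hX : 1 ≤ X) :
    numR P X + 1 = numD Q X := by
  unfold numR numD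
  have h2 : ((Icc (-(X : ℤ)) X).filter fun d => |disc d| ≤ X ∧ Squarefree d ∧ Q d) =
      insert 1 ((Icc (2 : ℤ) X).filter fun m => disc m ≤ X ∧ Squarefree m ∧ P m) := by
    ext d
    rw [mem_filter, mem_insert, mem_filter, mem_Icc, mem_Icc, hQ]
    have hdisc : 0 < d → |disc d| = disc d := by
      intro h
      apply abs_of_pos
      unfold disc
      split_ifs <;> omega
    constructor
    · rintro ⟨h3, h4, h5, h6, h7⟩
      by_cases hd : d = 1
      · exact Or.inl hd
      · right
        rw [hdisc h6] at h4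
        exact ⟨⟨by omega, h3.2⟩, h4, h5, h7⟩
    · rintro (rfl | ⟨h3, h4, h5, h6⟩)
      · refine ⟨by omega, ?_, squarefree_one, by norm_num, h1⟩
        unfold disc
        norm_num
        omega
      · have h0 : 0 < d := by omega
        rw [hdisc h0]
        exact ⟨by omega, h4, h5, h0, h6⟩
  rw [h2, card_insert_of_notMem]
  rw [mem_filter, mem_Icc]
  rintro ⟨h3, -⟩
  omega

theorem cri_one : Cri (disc 1) := by
  have e : disc 1 = 1 := rfl
  rw [e]
  intro x y _ _ _ p hp
  exfalso
  rw [Int.natAbs_one, Nat.primeFactors_one] at hp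
  exact absurd hp (notMem_empty p)

theorem rt_one : Rt17 1 := Or.inl ⟨by norm_num, by norm_num⟩

/-- **the proportion of the real quadratic fields** -/
theorem real17 : Tendsto (fun X : ℕ => (numR (fun m => Rt17 m ∧ Cri (disc m)) X : ℝ) /
    (numR (fun _ => True) X : ℝ)) atTop (nhds (17 / 36 * c2)) := by
  rw [mul_comm]
  refine real_good (fun X hX => ?_) (fun X hX => ?_)
  · rw [← numD_eq]
    have e : numD (fun d => (0 < d ∧ J17 d) ∧ G17 d) =
        numD (fun d => 0 < d ∧ (Rt17 d ∧ Cri (disc d))) := by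
      refine numD_congr fun d hd => ?_
      constructor
      · rintro ⟨⟨h1, h2⟩, h3⟩
        have hR : Rt17 d := Or.inl ⟨h1, h2⟩
        exact ⟨h1, hR, (Pool.Agent.H3.L17.g17_cri hd hR).1 h3⟩
      · rintro ⟨h1, hR, h3⟩
        refine ⟨⟨h1, ?_⟩, (Pool.Agent.H3.L17.g17_cri hd hR).2 h3⟩
        rcases hR with h | h
        · exact h.2
        · exfalso
          omega
    rw [e]
    exact numD_pos (fun d => Iff.rfl) ⟨rt_one, cri_one⟩ hX
  · rw [← numD_eq]
    exact numD_pos (P := fun _ => True) (fun d => by simp) trivial hX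

end Pool.Agent.H3.MQ
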