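import Pool.Agent.H3.MQ.G

/-!
# The L-functions over multiquadratic fields: the product
-/

set_option autoImplicit false

open NumberField IsDedekindDomain

namespace Pool.Agent.H3.MQ

open Pool.Agent.N856.MT
open Pool.Agent.H341R2.EC (IsMinAt)
open Pool.Agent.R433.MD (lf LL LL_ne_zero differentiable_lf)
open Pool.Agent.R333.BR (lf_one)
open H300.HW (YY)

open scoped Classical

theorem tQ : S_QCH := Pool.Agent.N400.MT.t_QCH Pool.Agent.N55.MT.t_QG

/-- the data at a character of order two -/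
theorem quad0 {n : ℕ} [NeZero n] (L : Type) [Field L] [NumberField L]
    [IsCyclotomicExtension {n} ℚ L] (F : IntermediateField ℚ L) {a b : ℤ}
    (hc : ∀ c : ℤ, Squarefree c → (∃ x : F, x ^ 2 = (c : F)) → ∃ a' b' g : ℤ, g ≠ 0 ∧
      a * c ^ 2 = a' * g ^ 4 ∧ b * c ^ 3 = b' * g ^ 6 ∧ HB a' b' ∧ LZ a' b')
    (χ : DirichletCharacter ℂ n) (hχ : χ ∈ YY n L F) (h : χ ^ 2 = 1) :
    ∃ (a' b' : ℤ) (E : ℕ), E ≠ 0 ∧ HB a' b' ∧ LZ a' b' ∧
      2 * (-4 * a' ^ 3 - 27 * b' ^ 2) ∣ (E : ℤ) ∧ ∀ p : ℕ, p.Prime → ¬ p ∣ E →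
        (tp a b p : ℂ) * χ (p : ZMod n) = (tp a' b' p : ℂ) ∧ (χ (p : ZMod n)) ^ 2 = 1 := by
  have hTW : S_TW := Pool.Agent.N432.MT.t_TW
  obtain ⟨c, hc1, hc2, hc3⟩ := tQ n L F χ hχ h
  obtain ⟨a', b', g, hg, ha, hb, hB, hL⟩ := hc c hc1 hc2
  have hc0 := hc1.ne_zero
  have hΔ : 2 * (-4 * a' ^ 3 - 27 * b' ^ 2) ≠ 0 := by
    have := hL.1
    intro h'
    apply this
    linarith
  refine ⟨a', b', (2 * n) * c.natAbs * g.natAbs * (2 * (-4 * a' ^ 3 - 27 * b' ^ 2)).natAbs,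
    ?_, hB, hL, ?_, ?_⟩
  · have := NeZero.ne n
    exact mul_ne_zero (mul_ne_zero (mul_ne_zero (by omega) (Int.natAbs_ne_zero.2 hc0))
      (Int.natAbs_ne_zero.2 hg)) (Int.natAbs_ne_zero.2 hΔ)
  · rw [Nat.cast_mul]
    exact dvd_mul_of_dvd_right (Int.dvd_natAbs.2 dvd_rfl) _
  · intro p hp hpE
    have h2n : ¬ p ∣ 2 * n := fun h' => hpE ((h'.mul_right _).mul_right _ |>.mul_right _)
    have hpc : ¬ (p : ℤ) ∣ c := fun h' => hpE (((Int.natCast_dvd.1 h').mul_left _).mul_right _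
      |>.mul_right _)
    have hpg : ¬ (p : ℤ) ∣ g := fun h' => hpE ((Int.natCast_dvd.1 h').mul_left _ |>.mul_right _)
    have hp2 : p ≠ 2 := fun h' => h2n (by rw [h']; exact dvd_mul_right 2 n)
    have h1 := hc3 p hp h2n hpc
    have h3 := hTW a b c p hp hp2 hpc
    rw [ha, hb, tp_sq hTW hp hp2 hpg] at h3
    have h4 : Int.gcd c p = 1 := by
      rw [Int.gcd_comm]
      exact Int.isCoprime_iff_gcd_eq_one.1
        (((Nat.prime_iff_prime_int.1 hp).coprime_iff_not_dvd).2 hpc)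
    have h5 := jacobiSym.sq_one h4
    rw [h1, h3]
    refine ⟨by push_cast; ring, ?_⟩
    exact_mod_cast h5

/-- **The product over the quadratic characters.** -/
theorem eng0 {a b : ℤ} (hΔ' : 4 * a ^ 3 + 27 * b ^ 2 ≠ 0) {n : ℕ} [NeZero n] (L : Type) [Field L]
    [NumberField L] [IsCyclotomicExtension {n} ℚ L] (F : IntermediateField ℚ L)
    (hexp : ∀ χ ∈ YY n L F, χ ^ 2 = 1)
    (hc : ∀ c : ℤ, Squarefree c → (∃ x : F, x ^ 2 = (c : F)) → ∃ a' b' g : ℤ, g ≠ 0 ∧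
      a * c ^ 2 = a' * g ^ 4 ∧ b * c ^ 3 = b' * g ^ 6 ∧ HB a' b' ∧ LZ a' b')
    (V : HeightOneSpectrum (𝓞 F) → WeierstrassCurve (𝓞 F))
    (hV : ∀ v, IsMinAt (EK F a b) v (V v)) :
    ∃ (P : ℂ → ℂ) (S : Finset (HeightOneSpectrum (𝓞 F))), Differentiable ℂ P ∧
      (∀ s : ℂ, 3 / 2 < s.re → LL V s * ∏ v ∈ S, lf V s v = P s) ∧ P 1 ≠ 0 := by
  have hq := fun χ : YY n L F => quad0 L F hc χ.1 χ.2 (hexp χ.1 χ.2)
  choose a' b' E hE0 hB hLZ hdiv hval using hq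
  set D : ℕ := (6 * (4 * a ^ 3 + 27 * b ^ 2)).natAbs * n * ∏ χ : YY n L F, E χ with hD
  have hn0 := NeZero.ne n
  have hD0 : D ≠ 0 := by
    rw [hD]
    refine mul_ne_zero (mul_ne_zero ?_ hn0) (Finset.prod_ne_zero_iff.2 fun χ _ => hE0 χ)
    exact Int.natAbs_ne_zero.2 (mul_ne_zero (by norm_num) hΔ')
  have hD1 : 6 * (4 * a ^ 3 + 27 * b ^ 2) ∣ (D : ℤ) := by
    refine Int.dvd_natCast.2 ?_
    rw [hD]
    exact (dvd_mul_right _ _).mul_right _
  have hD5 : n ∣ D := by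
    rw [hD]
    exact (dvd_mul_left _ _).mul_right _
  have hD6 : ∀ χ : YY n L F, E χ ∣ D := fun χ => by
    rw [hD]
    exact (Finset.dvd_prod_of_mem E (Finset.mem_univ χ)).mul_left _
  -- the functions
  have hg := fun χ : YY n L F => exG (hB χ) (hLZ χ) hD0
    (dvd_trans (hdiv χ) (by exact_mod_cast hD6 χ))
  choose G hG1 hG3 hG2 using hg
  obtain ⟨S, hS⟩ := Pool.Agent.N955.MT.t_EUL n L F a b D hD0 hΔ' hD1 hD5 V hV
  have hprod : ∀ s : ℂ, 3 / 2 < s.re → LL V s * ∏ v ∈ S, lf V s v = ∏ χ : YY n L F, G χ s := by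
    intro s hs
    let G' : DirichletCharacter ℂ n → ℂ → ℂ := fun χ s =>
      if h : χ ∈ YY n L F then G ⟨χ, h⟩ s else 0
    have h1 := hS G' s hs fun χ hχ => by
      have e : G' χ s = G ⟨χ, hχ⟩ s := dif_pos hχ
      rw [e]
      refine (congrArg (fun f => HasProd f (G ⟨χ, hχ⟩ s)) (funext fun p => ?_)).mp
        (hG2 ⟨χ, hχ⟩ s hs)
      by_cases hp : (p : ℕ) ∣ D
      · rw [if_pos hp, if_pos hp]
      · rw [if_neg hp, if_neg hp]
        obtain ⟨h5, h6⟩ := hval ⟨χ, hχ⟩ p p.2 fun h => hp (dvd_trans h (hD6 ⟨χ, hχ⟩))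
        unfold eu
        rw [h5, h6]
        ring
    rw [finprod_eq_prod_of_fintype] at h1
    refine h1.trans (Finset.prod_congr rfl fun χ _ => ?_)
    exact dif_pos χ.2
  exact ⟨fun s => ∏ χ : YY n L F, G χ s, S, Differentiable.fun_finsetProd fun χ _ => hG1 χ,
    hprod, Finset.prod_ne_zero_iff.2 fun χ _ => hG3 χ⟩

/-- the order at `1` of every analytic continuation is zero -/
theorem ord0 {F : Type} [Field F] [NumberField F]
    {V : HeightOneSpectrum (𝓞 F) → WeierstrassCurve (𝓞 F)} {P : ℂ → ℂ}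
    {S : Finset (HeightOneSpectrum (𝓞 F))} (hP : Differentiable ℂ P)
    (hPS : ∀ s : ℂ, 3 / 2 < s.re → LL V s * ∏ v ∈ S, lf V s v = P s)
    (hP1 : P 1 ≠ 0) {U : Set ℂ} {f : ℂ → ℂ}
    (hUo : IsOpen U) (hU : IsConnected U) (h1 : (1 : ℂ) ∈ U) (hH : {s : ℂ | 3 / 2 < s.re} ⊆ U)
    (hf : AnalyticOnNhd ℂ f U) (hfL : ∀ s : ℂ, 3 / 2 < s.re → f s = LL V s) :
    f 1 ≠ 0 := by
  have h0 : analyticOrderAt P 1 = ((2 * 0 : ℕ) : ℕ∞) := by
    rw [(hP.analyticAt 1).analyticOrderAt_eq_zero.2 hP1]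
    rfl
  have h2 := eng_ord hP hPS h0 hUo hU h1 hH hf hfL
  exact (hf 1 h1).analyticOrderAt_eq_zero.1 (by rw [h2]; rfl)

/-- the continuation -/
theorem cont0 {F : Type} [Field F] [NumberField F]
    {V : HeightOneSpectrum (𝓞 F) → WeierstrassCurve (𝓞 F)} {P : ℂ → ℂ}
    {S : Finset (HeightOneSpectrum (𝓞 F))} (hP : Differentiable ℂ P) (hP1 : P 1 ≠ 0)
    (hPS : ∀ s : ℂ, 3 / 2 < s.re → LL V s * ∏ v ∈ S, lf V s v = P s) :
    ∃ Λ : ℂ → ℂ, (∀ s, MeromorphicAt Λ s) ∧ AnalyticAt ℂ Λ 1 ∧ Λ 1 ≠ 0 ∧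
      ∀ s : ℂ, 3 / 2 < s.re → Λ s = LL V s := by
  set B : ℂ → ℂ := fun s => ∏ v ∈ S, lf V s v with hB
  have hBd : Differentiable ℂ B := Differentiable.fun_finsetProd fun v _ => differentiable_lf V v
  have hB1 : B 1 ≠ 0 := Finset.prod_ne_zero_iff.2 fun v _ => lf_one V v
  refine ⟨fun s => P s / B s, fun s => ?_, ?_, div_ne_zero hP1 hB1, fun s hs => ?_⟩
  · exact (hP.analyticAt s).meromorphicAt.fun_div (hBd.analyticAt s).meromorphicAt
  · exact (hP.analyticAt 1).fun_div (hBd.analyticAt 1) hB1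
  · have hB2 : B s ≠ 0 := Finset.prod_ne_zero_iff.2 fun v _ =>
      Pool.Agent.R433.MD.lf_ne_zero V hs v
    show P s / B s = LL V s
    rw [← hPS s hs, mul_div_assoc, div_self hB2, mul_one]

/-- the characters of a multiquadratic field -/
theorem exp_two {n : ℕ} [NeZero n] (L : Type) [Field L] [NumberField L]
    [IsCyclotomicExtension {n} ℚ L] (F : IntermediateField ℚ L) {k : ℕ} {r : Fin k → F}
    {d : Fin k → ℤ} (hr : ∀ i, r i ^ 2 = (d i : F))
    (hgen : IntermediateField.adjoin ℚ (Set.range r) = ⊤) : ∀ χ ∈ YY n L F, χ ^ 2 = 1 := by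
  intro χ hχ
  refine MulChar.ext fun u => ?_
  obtain ⟨σ, hσ⟩ := (IsCyclotomicExtension.Rat.galEquivZMod n L).surjective u
  have hri : ∀ i, σ (σ (r i : L)) = (r i : L) := by
    intro i
    have h1 : (σ (r i : L)) ^ 2 = (r i : L) ^ 2 := by
      have h2 : (r i : L) ^ 2 = ((d i : ℤ) : L) := by
        have := congrArg (fun x : F => (x : L)) (hr i)
        push_cast at this
        exact this
      rw [← map_pow, h2, map_intCast]
    rcases sq_eq_sq_iff_eq_or_eq_neg.1 h1 with h2 | h2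
    · rw [h2, h2]
    · rw [h2, map_neg, h2, neg_neg]
  have hall : ∀ x : F, σ (σ (x : L)) = (x : L) := by
    intro x
    have hx : x ∈ IntermediateField.adjoin ℚ (Set.range r) := by
      rw [hgen]
      exact IntermediateField.mem_top
    induction hx using IntermediateField.adjoin_induction with
    | mem x hx =>
      obtain ⟨i, rfl⟩ := hx
      exact hri i
    | algebraMap q =>
      have e : ((algebraMap ℚ F q : F) : L) = (q : L) := by
        rw [eq_ratCast]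
        exact map_ratCast (algebraMap F L) q
      rw [e, map_ratCast, map_ratCast]
    | add x y _ _ h1 h2 =>
      have e : ((x + y : F) : L) = (x : L) + (y : L) := rfl
      rw [e, map_add, map_add, h1, h2]
    | inv x _ h1 =>
      have e : ((x⁻¹ : F) : L) = (x : L)⁻¹ := rfl
      rw [e, map_inv₀, map_inv₀, h1]
    | mul x y _ _ h1 h2 =>
      have e : ((x * y : F) : L) = (x : L) * (y : L) := rfl
      rw [e, map_mul, map_mul, h1, h2]
  have h1 : σ * σ ∈ F.fixingSubgroup := by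
    rw [IntermediateField.mem_fixingSubgroup_iff]
    intro x hx
    exact hall ⟨x, hx⟩
  have h3 := (H300.HW.mem_YY n L F χ).1 hχ _ h1
  rw [map_mul, Units.val_mul, map_mul, hσ] at h3
  rw [MulChar.pow_apply_coe, MulChar.one_apply_coe, sq]
  exact h3

end Pool.Agent.H3.MQ
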