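import Pool.Agent.H3.MQ.Q

/-!
# The quadratic subfields of a multiquadratic field, and the main theorem for a family
-/

set_option autoImplicit false

open NumberField

namespace Pool.Agent.H3.MQ

open Pool.Agent.N856.MT (EK)

open scoped Classical

/-- the square roots of rational numbers in a multiquadratic field -/
theorem kum_set {E : Type} [Field E] [CharZero E] {k : ℕ} {r : Fin k → E} {m : Fin k → ℤ}
    (hr : ∀ i, r i ^ 2 = (m i : E)) (hm : ∀ i, m i ≠ 0) (S : Finset (Fin k)) :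
    ∀ x : E, x ∈ IntermediateField.adjoin ℚ (r '' (S : Set (Fin k))) →
      x ^ 2 ∈ (⊥ : IntermediateField ℚ E) →
      ∃ T : Finset (Fin k), x * ∏ i ∈ T, r i ∈ (⊥ : IntermediateField ℚ E) := by
  have hb : ∀ i, r i ^ 2 ∈ (⊥ : IntermediateField ℚ E) := fun i => by
    rw [hr i]
    exact intCast_mem _ _
  induction S using Finset.induction_on with
  | empty =>
    intro x hx _
    rw [Finset.coe_empty, Set.image_empty, IntermediateField.adjoin_empty] at hx
    exact ⟨∅, by rwa [Finset.prod_empty, mul_one]⟩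
  | insert i S hi ih =>
    intro x hx hx2
    have hbK : ∀ y : E, y ∈ (⊥ : IntermediateField ℚ E) →
        y ∈ IntermediateField.adjoin ℚ (r '' (S : Set (Fin k))) := fun y hy => by
      have : (⊥ : IntermediateField ℚ E) ≤ IntermediateField.adjoin ℚ (r '' (S : Set (Fin k))) :=
        bot_le
      exact this hy
    have h1 : x ∈ IntermediateField.adjoin (IntermediateField.adjoin ℚ (r '' (S : Set (Fin k))))
        {r i} := by
      have h2 := IntermediateField.adjoin_adjoin_left ℚ (r '' (S : Set (Fin k))) {r i}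
      rw [Finset.coe_insert, Set.image_insert_eq, Set.insert_eq, Set.union_comm] at hx
      exact h2.ge hx
    rcases quad_mem _ (hbK _ (hb i)) h1 (hbK _ hx2) with h | h
    · exact ih x h hx2
    · obtain ⟨T, hT⟩ := ih (x * r i) h (by
        rw [mul_pow]
        exact mul_mem hx2 (hb i))
      by_cases hiT : i ∈ T
      · refine ⟨T.erase i, ?_⟩
        have e : x * r i * ∏ j ∈ T, r j = (x * ∏ j ∈ T.erase i, r j) * r i ^ 2 := by
          rw [← Finset.mul_prod_erase T r hiT]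
          ring
        rw [e] at hT
        have h0 : r i ^ 2 ≠ 0 := by
          rw [hr i]
          exact_mod_cast hm i
        have h5 := mul_mem hT (inv_mem (hb i))
        rwa [mul_assoc, mul_inv_cancel₀ h0, mul_one] at h5
      · refine ⟨insert i T, ?_⟩
        rw [Finset.prod_insert hiT, ← mul_assoc]
        exact hT

/-- the same in integers -/
theorem kum {E : Type} [Field E] [CharZero E] {k : ℕ} {r : Fin k → E} {m : Fin k → ℤ}
    (hr : ∀ i, r i ^ 2 = (m i : E)) (hm : ∀ i, m i ≠ 0)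
    (hgen : IntermediateField.adjoin ℚ (Set.range r) = ⊤) {c : ℤ} {x : E} (hx : x ^ 2 = (c : E)) :
    ∃ (T : Finset (Fin k)) (q : ℤ), c * ∏ i ∈ T, m i = q ^ 2 := by
  obtain ⟨T, hT⟩ := kum_set hr hm Finset.univ x (by
    rw [Finset.coe_univ, Set.image_univ, hgen]
    exact IntermediateField.mem_top) (by
    rw [hx]
    exact intCast_mem _ _)
  rw [IntermediateField.mem_bot] at hT
  obtain ⟨q, hq⟩ := hT
  have h1 : (q : ℚ) ^ 2 = ((c * ∏ i ∈ T, m i : ℤ) : ℚ) := by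
    have h2 : (algebraMap ℚ E q) ^ 2 = ((c * ∏ i ∈ T, m i : ℤ) : E) := by
      rw [hq, mul_pow, hx, ← Finset.prod_pow, Finset.prod_congr rfl fun i _ => hr i]
      push_cast
      rfl
    apply (algebraMap ℚ E).injective
    rw [map_pow, h2, map_intCast]
  have h3 : IsSquare ((c * ∏ i ∈ T, m i : ℤ) : ℚ) := ⟨q, by rw [← h1, sq]⟩
  rw [Rat.isSquare_intCast_iff] at h3
  obtain ⟨y, hy⟩ := h3
  exact ⟨T, y, by rw [hy, sq]⟩

/-- a square dividing a squarefree number times a square -/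
theorem dvd_of_sq {e P N : ℤ} (he : Squarefree e) (hP : P ≠ 0) (h : P ^ 2 ∣ e * N ^ 2) : P ∣ N := by
  obtain ⟨g, P', N', hg, hc, rfl, rfl⟩ : ∃ g P' N' : ℤ, g ≠ 0 ∧ IsCoprime P' N' ∧ P = g * P' ∧
      N = g * N' := by
    have hg : (Int.gcd P N : ℤ) ≠ 0 := by
      have : Int.gcd P N ≠ 0 := fun h0 => hP (Int.gcd_eq_zero_iff.1 h0).1
      exact_mod_cast this
    refine ⟨Int.gcd P N, P / Int.gcd P N, N / Int.gcd P N, hg, ?_,
      (Int.mul_ediv_cancel' (Int.gcd_dvd_left ..)).symm,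
      (Int.mul_ediv_cancel' (Int.gcd_dvd_right ..)).symm⟩
    rw [Int.isCoprime_iff_gcd_eq_one]
    exact Int.gcd_div_gcd_div_gcd (Nat.pos_of_ne_zero (by exact_mod_cast hg))
  have h1 : P' ^ 2 ∣ e * N' ^ 2 := by
    have e1 : (g * P') ^ 2 = g ^ 2 * P' ^ 2 := by ring
    have e2 : e * (g * N') ^ 2 = g ^ 2 * (e * N' ^ 2) := by ring
    rw [e1, e2] at h
    exact (mul_dvd_mul_iff_left (pow_ne_zero 2 hg)).1 h
  have h2 : P' ^ 2 ∣ e := (hc.pow (m := 2) (n := 2)).dvd_of_dvd_mul_right h1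
  have h3 : IsUnit P' := he P' (by rwa [← sq])
  exact mul_dvd_mul_left g (h3.dvd)

/-- **The rank formula for the twists of a curve over a multiquadratic field.** -/
theorem main1 {a₀ b₀ : ℤ} (h0 : 4 * a₀ ^ 3 + 27 * b₀ ^ 2 ≠ 0) {Ok : ℤ → Prop}
    (hOk : ∀ e : ℤ, Squarefree e → Ok e → Q0 (a₀ * e ^ 2) (b₀ * e ^ 3)) {d : ℤ} (hd : d ≠ 0)
    {n : ℕ} [NeZero n] (L : Type) [Field L]
    [NumberField L] [IsCyclotomicExtension {n} ℚ L] (F : IntermediateField ℚ L) {k : ℕ}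
    {r : Fin k → F} {m : Fin k → ℤ} (hr : ∀ i, r i ^ 2 = (m i : F)) (hm : ∀ i, m i ≠ 0)
    (hgen : IntermediateField.adjoin ℚ (Set.range r) = ⊤)
    (hT : ∀ (T : Finset (Fin k)) (e g : ℤ), Squarefree e → d * ∏ i ∈ T, m i = e * g ^ 2 → Ok e) :
    Zero (EK F (a₀ * d ^ 2) (b₀ * d ^ 3)) := by
  refine main0 ?_ (n := n) L F hr hm hgen ?_
  · have e : 4 * (a₀ * d ^ 2) ^ 3 + 27 * (b₀ * d ^ 3) ^ 2 = (4 * a₀ ^ 3 + 27 * b₀ ^ 2) * d ^ 6 := by
      ring
    rw [e]
    exact mul_ne_zero h0 (pow_ne_zero 6 hd)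
  · rintro c hc ⟨x, hx⟩
    obtain ⟨T, q, hq⟩ := kum hr hm hgen hx
    have hP : ∏ i ∈ T, m i ≠ 0 := Finset.prod_ne_zero_iff.2 fun i _ => hm i
    have hc0 := hc.ne_zero
    have hq0 : q ≠ 0 := by
      rintro rfl
      rw [zero_pow two_ne_zero] at hq
      exact mul_ne_zero hc0 hP hq
    obtain ⟨e, g, he, hg, heg⟩ := sqf_sq (d * ∏ i ∈ T, m i) (mul_ne_zero hd hP)
    have hoke := hOk e he (hT T e g he heg)
    -- `d c P² = e (g q)²`
    have h1 : d * c * (∏ i ∈ T, m i) ^ 2 = e * (g * q) ^ 2 := by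
      have : d * c * (∏ i ∈ T, m i) ^ 2 = (d * ∏ i ∈ T, m i) * (c * ∏ i ∈ T, m i) := by ring
      rw [this, heg, hq]
      ring
    obtain ⟨t, ht⟩ := dvd_of_sq he hP (Dvd.intro_left _ h1)
    have h2 : d * c = e * t ^ 2 := by
      rw [ht] at h1
      have h3 : (d * c) * (∏ i ∈ T, m i) ^ 2 = (e * t ^ 2) * (∏ i ∈ T, m i) ^ 2 := by
        rw [h1]
        ring
      exact mul_right_cancel₀ (pow_ne_zero 2 hP) h3
    have ht0 : t ≠ 0 := by
      rintro rfl
      rw [zero_pow two_ne_zero, mul_zero] at h2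
      exact mul_ne_zero hd hc0 h2
    refine ⟨a₀ * e ^ 2, b₀ * e ^ 3, t, ht0, ?_, ?_, hoke⟩
    · have : a₀ * d ^ 2 * c ^ 2 = a₀ * (d * c) ^ 2 := by ring
      rw [this, h2]
      ring
    · have : b₀ * d ^ 3 * c ^ 3 = b₀ * (d * c) ^ 3 := by ring
      rw [this, h2]
      ring

end Pool.Agent.H3.MQ
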