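import Pool.Agent.H3.MQ.E0
import Pool.Agent.H3.MQ.S0
import Pool.Graph.R_pool_sql_team_seeded_63374d34.N856.MT.Eng

/-!
# The rank formula over multiquadratic fields: the general theorem
-/

set_option autoImplicit false

open NumberField IsDedekindDomain

namespace Pool.Agent.H3.MQ

open Pool.Agent.N856.MT (EK LZ Minimal Lser Lser_eq isMin_of toP galF)
open Pool.Agent.R433.MD (lf LL)
open H300.HW (YY)

open scoped Classical

section
variable {K : Type} [Field K] [NumberField K]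

/-- the order of vanishing, the rank and the dimension of the Bloch-Kato Selmer group are zero -/
def Zero (E : WeierstrassCurve K) : Prop :=
  Finite E.toAffine.Point ∧ (∀ x : Pool.Agent.Y667.BKP.H1f 2 E, x = 0) ∧
  ∀ M : {P : Ideal (𝓞 K) // P.IsPrime ∧ P ≠ ⊥} → WeierstrassCurve (𝓞 K), Minimal E M →
    (∃ Λ : ℂ → ℂ, (∀ s, MeromorphicAt Λ s) ∧ AnalyticAt ℂ Λ 1 ∧ Λ 1 ≠ 0 ∧
      ∀ s : ℂ, 3 / 2 < s.re → Λ s = Lser M s) ∧
    ∀ (U : Set ℂ) (f : ℂ → ℂ), IsOpen U → IsConnected U → (1 : ℂ) ∈ U →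
      {s : ℂ | 3 / 2 < s.re} ⊆ U → AnalyticOnNhd ℂ f U →
      (∀ s : ℂ, 3 / 2 < s.re → f s = Lser M s) → f 1 ≠ 0

end

/-- the properties of the curves over `ℚ` -/
def Q0 (a b : ℤ) : Prop := HB a b ∧ LZ a b ∧ Finite (EK ℚ a b).toAffine.Point ∧
  ∀ x : Pool.Agent.TH841.SH.D.Sha (EK ℚ a b), x + x = 0 → x = 0

/-- **The rank formula over a multiquadratic field.** -/
theorem main0 {a b : ℤ} (h0 : 4 * a ^ 3 + 27 * b ^ 2 ≠ 0) {n : ℕ} [NeZero n] (L : Type) [Field L]
    [NumberField L] [IsCyclotomicExtension {n} ℚ L] (F : IntermediateField ℚ L) {k : ℕ}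
    {r : Fin k → F} {m : Fin k → ℤ} (hr : ∀ i, r i ^ 2 = (m i : F)) (hm : ∀ i, m i ≠ 0)
    (hgen : IntermediateField.adjoin ℚ (Set.range r) = ⊤) (hc : Tw0 F a b Q0) :
    Zero (EK F a b) := by
  obtain ⟨hgal, hcom⟩ := galF (n := n) L F
  have hexp := exp_two (n := n) L F hr hgen
  have hsq : ∀ σ : F ≃ₐ[ℚ] F, σ * σ = 1 := by
    intro σ
    have hri : ∀ i, σ (σ (r i)) = r i := by
      intro i
      have h1 : (σ (r i)) ^ 2 = (r i) ^ 2 := by
        rw [← map_pow, hr i, map_intCast]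
      rcases sq_eq_sq_iff_eq_or_eq_neg.1 h1 with h2 | h2
      · rw [h2, h2]
      · rw [h2, map_neg, h2, neg_neg]
    ext x
    congr 1
    have hx : x ∈ IntermediateField.adjoin ℚ (Set.range r) := by
      rw [hgen]
      exact IntermediateField.mem_top
    show σ (σ x) = x
    induction hx using IntermediateField.adjoin_induction with
    | mem x hx =>
      obtain ⟨i, rfl⟩ := hx
      exact hri i
    | algebraMap q => rw [AlgEquiv.commutes, AlgEquiv.commutes]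
    | add x y _ _ h1 h2 => rw [map_add, map_add, h1, h2]
    | inv x _ h1 => rw [map_inv₀, map_inv₀, h1]
    | mul x y _ _ h1 h2 => rw [map_mul, map_mul, h1, h2]
  have hfin : Finite (EK F a b).toAffine.Point := by
    refine fin0 h0 hsq ?_
    intro c hc1 hc2
    obtain ⟨a', b', g, h1, h2, h3, h4⟩ := hc c hc1 hc2
    exact ⟨a', b', g, h1, h2, h3, h4.2.2.1⟩
  refine ⟨hfin, ?_, ?_⟩
  · refine h1f0 h0 hr hm hgen hfin ?_
    intro c hc1 hc2
    obtain ⟨a', b', g, h1, h2, h3, h4⟩ := hc c hc1 hc2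
    exact ⟨a', b', g, h1, h2, h3, h4.2.2.2⟩
  · intro M hM
    obtain ⟨P, S, hP, hPS, hP1⟩ := eng0 h0 (n := n) L F hexp (by
      intro c hc1 hc2
      obtain ⟨a', b', g, h1, h2, h3, h4⟩ := hc c hc1 hc2
      exact ⟨a', b', g, h1, h2, h3, h4.1, h4.2.1⟩) (fun v => M (toP v)) (isMin_of hM)
    constructor
    · obtain ⟨Λ, h1, h2, h3, h4⟩ := cont0 hP hP1 hPS
      exact ⟨Λ, h1, h2, h3, fun s hs => by rw [h4 s hs, Lser_eq]⟩
    · intro U f hUo hU h1 hH hf hfL
      exact ord0 hP hPS hP1 hUo hU h1 hH hf fun s hs => by rw [hfL s hs, Lser_eq]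

/-- a quadratic extension of a field inside a larger field -/
theorem quad_mem {E : Type} [Field E] [CharZero E] [Algebra ℚ E] (K : IntermediateField ℚ E)
    {r x : E} (hr : r ^ 2 ∈ K) (hx : x ∈ IntermediateField.adjoin K {r}) (hx2 : x ^ 2 ∈ K) :
    x ∈ K ∨ x * r ∈ K := by
  by_cases hrK : r ∈ K
  · left
    have h1 : IntermediateField.adjoin K {r} = ⊥ := by
      rw [IntermediateField.adjoin_simple_eq_bot_iff, IntermediateField.mem_bot]
      exact ⟨⟨r, hrK⟩, rfl⟩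
    rw [h1, IntermediateField.mem_bot] at hx
    obtain ⟨y, rfl⟩ := hx
    exact y.2
  -- the elements
  have hrep : ∃ u v : E, u ∈ K ∧ v ∈ K ∧ x = u + v * r := by
    clear hx2
    induction hx using IntermediateField.adjoin_induction with
    | mem x hx =>
      rw [Set.mem_singleton_iff] at hx
      exact ⟨0, 1, K.zero_mem, K.one_mem, by rw [hx]; ring⟩
    | algebraMap q => exact ⟨q, 0, q.2, K.zero_mem, by rw [zero_mul, add_zero]; rfl⟩
    | add x y _ _ h1 h2 =>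
      obtain ⟨u, v, hu, hv, rfl⟩ := h1
      obtain ⟨u', v', hu', hv', rfl⟩ := h2
      exact ⟨u + u', v + v', K.add_mem hu hu', K.add_mem hv hv', by ring⟩
    | inv x _ h1 =>
      obtain ⟨u, v, hu, hv, rfl⟩ := h1
      by_cases h0 : u + v * r = 0
      · exact ⟨0, 0, K.zero_mem, K.zero_mem, by rw [h0, inv_zero, zero_mul, add_zero]⟩
      have hn : u - v * r ≠ 0 := by
        intro h2
        by_cases hv0 : v = 0
        · rw [hv0, zero_mul, sub_zero] at h2
          rw [hv0, h2, zero_mul, add_zero] at h0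
          exact h0 rfl
        · apply hrK
          have : r = u * v⁻¹ := by
            rw [eq_mul_inv_iff_mul_eq₀ hv0]
            linear_combination -h2
          rw [this]
          exact K.mul_mem hu (K.inv_mem hv)
      have hN : u ^ 2 - v ^ 2 * r ^ 2 ≠ 0 := by
        have : u ^ 2 - v ^ 2 * r ^ 2 = (u + v * r) * (u - v * r) := by ring
        rw [this]
        exact mul_ne_zero h0 hn
      have hNK : u ^ 2 - v ^ 2 * r ^ 2 ∈ K :=
        K.sub_mem (pow_mem hu 2) (K.mul_mem (pow_mem hv 2) hr)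
      refine ⟨u * (u ^ 2 - v ^ 2 * r ^ 2)⁻¹, -v * (u ^ 2 - v ^ 2 * r ^ 2)⁻¹,
        K.mul_mem hu (K.inv_mem hNK), K.mul_mem (K.neg_mem hv) (K.inv_mem hNK), ?_⟩
      have e1 : u * (u ^ 2 - v ^ 2 * r ^ 2)⁻¹ + -v * (u ^ 2 - v ^ 2 * r ^ 2)⁻¹ * r =
          (u - v * r) * (u ^ 2 - v ^ 2 * r ^ 2)⁻¹ := by ring
      have e2 : u ^ 2 - v ^ 2 * r ^ 2 = (u + v * r) * (u - v * r) := by ring
      rw [e1, e2, mul_inv, mul_comm (u + v * r)⁻¹, ← mul_assoc, mul_inv_cancel₀ hn, one_mul]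
    | mul x y _ _ h1 h2 =>
      obtain ⟨u, v, hu, hv, rfl⟩ := h1
      obtain ⟨u', v', hu', hv', rfl⟩ := h2
      exact ⟨u * u' + v * v' * r ^ 2, u * v' + v * u', K.add_mem (K.mul_mem hu hu')
        (K.mul_mem (K.mul_mem hv hv') hr), K.add_mem (K.mul_mem hu hv') (K.mul_mem hv hu'), by ring⟩
  obtain ⟨u, v, hu, hv, rfl⟩ := hrep
  have h3 : u * v = 0 := by
    by_contra h3
    apply hrK
    have h4 : r = ((u + v * r) ^ 2 - u ^ 2 - v ^ 2 * r ^ 2) * (2 * (u * v))⁻¹ := by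
      rw [eq_mul_inv_iff_mul_eq₀ (mul_ne_zero two_ne_zero h3)]
      ring
    rw [h4]
    refine K.mul_mem (K.sub_mem (K.sub_mem hx2 (pow_mem hu 2)) (K.mul_mem (pow_mem hv 2) hr))
      (K.inv_mem (K.mul_mem ?_ (K.mul_mem hu hv)))
    exact ofNat_mem K 2
  rcases mul_eq_zero.1 h3 with h | h
  · right
    rw [h, zero_add, mul_assoc, ← sq]
    exact K.mul_mem hv hr
  · left
    rw [h, zero_mul, add_zero]
    exact hu

end Pool.Agent.H3.MQ
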