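import Pool.Agent.H3.MQ.M0
import Pool.Agent.H3.MQ.L1
import Pool.Agent.H3.X15.LFun
import Pool.Graph.R_seed8.W165.CE.FF
import Pool.Graph.R_seed8.TH841.SH.Tr

/-!
# The two families over `ℚ`
-/

set_option autoImplicit false

open NumberField

namespace Pool.Agent.H3.MQ

open Pool.Agent.N856.MT (EK tp LZ)
open Pool.Agent.N919.BS (Rt17)
open Pool.Agent.H3.L17 (Cri disc)

open scoped Classical

/-- the bound of Hasse -/
theorem hb_all (a b : ℤ) : HB a b := by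
  intro p hp hg
  have hp2 : p ≠ 2 := by
    rintro rfl
    exact hg (dvd_mul_right _ _)
  have : Fact p.Prime := ⟨hp⟩
  have hc : ringChar (ZMod p) ≠ 2 := by
    rw [ZMod.ringChar_zmod_n]
    exact hp2
  have h := W165.CE.hasse (k := ZMod p) hc (a : ZMod p) (b : ZMod p)
  rw [ZMod.card] at h
  unfold tp
  exact_mod_cast h

/-- the family of conductor `17` -/
theorem q17 {d : ℤ} (hd : Squarefree d) (hR : Rt17 d) (hC : Cri (disc d)) :
    Q0 (-91 * d ^ 2) (-330 * d ^ 3) := by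
  obtain ⟨-, h1, h2⟩ := Pool.Agent.H3.L17.rank_sha hd hC
  refine ⟨hb_all _ _, lz_of (disc17_ne hd.ne_zero) (bsd17 hd hR hC), h1, ?_⟩
  intro x hx
  let e := Pool.Agent.TH841.SH.D.eSha (EK ℚ (-91 * d ^ 2) (-330 * d ^ 3))
  have h3 : e x = 0 := h2 _ (by
    show e x + e x = 0
    rw [← map_add, hx, map_zero])
  exact (AddEquiv.map_eq_zero_iff e).1 h3

theorem disc15_ne {D : ℤ} (hD : D ≠ 0) :
    4 * (-12987 * D ^ 2) ^ 3 + 27 * (-263466 * D ^ 3) ^ 2 ≠ 0 := by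
  have e : 4 * (-12987 * D ^ 2) ^ 3 + 27 * (-263466 * D ^ 3) ^ 2 =
      (4 * (-12987) ^ 3 + 27 * (-263466) ^ 2) * D ^ 6 := by ring
  rw [e]
  exact mul_ne_zero (by norm_num) (pow_ne_zero 6 hD)

/-- the family of conductor `15` -/
theorem q15 {D : ℕ} (hD : Squarefree D) (hF : Pool.Agent.H757_X15.DD.Fm D) (h1 : D ≠ 1)
    (hC : Pool.Agent.H757_X15.DD.Crit D) :
    Q0 (-12987 * (D : ℤ) ^ 2) (-263466 * (D : ℤ) ^ 3) := by
  obtain ⟨⟨F, f1, f2, f3⟩, -, h4, h2⟩ := Pool.Agent.H3.X15.main hD hF h1 hC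
  have hD0 : (D : ℤ) ≠ 0 := by exact_mod_cast hD.ne_zero
  refine ⟨hb_all _ _, ⟨disc15_ne hD0, F, f1, ?_, f3⟩, h4, ?_⟩
  · intro s hs
    have h := f2 s hs
    unfold Pool.Agent.H3.X15.fac at h
    exact h
  · intro x hx
    let e := Pool.Agent.TH841.SH.D.eSha (EK ℚ (-12987 * (D : ℤ) ^ 2) (-263466 * (D : ℤ) ^ 3))
    have h3 : e x = 0 := h2 _ (by
      show e x + e x = 0
      rw [← map_add, hx, map_zero])
    exact (AddEquiv.map_eq_zero_iff e).1 h3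

end Pool.Agent.H3.MQ
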