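import Pool.Agent.H3.MQ.T
import Pool.Graph.R_pool_sql_team_seeded_620a6dc7.H757_X15.DN.Fin
import Pool.Graph.R_pool_sql_team_seeded_620a6dc7.H757_X15.DN.Den2
import Pool.Graph.R_pool_sql_team_seeded_620a6dc7.H735X.Fin
import Pool.Graph.R_pool_sql_team_seeded_620a6dc7.H735X.Law

/-!
# The twists of `X_0(15)` over a multiquadratic field: the proportion
-/

set_option autoImplicit false

open scoped Classical

namespace Pool.Agent.H3.MQ

open Finset Filter
open Pool.Agent.H757_X15.DD (Fm Crit)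
open Pool.Agent.H735X (tw lawD t_JDQ)

/-- uniqueness of the squarefree part -/
theorem sqf_unique {a a' g g' : ℕ} (ha : Squarefree a) (ha' : Squarefree a') (hg : g ≠ 0)
    (hg' : g' ≠ 0) (h : a * g ^ 2 = a' * g' ^ 2) : a = a' := by
  have h' : (a : ℤ) * (g : ℤ) ^ 2 = (a' : ℤ) * (g' : ℤ) ^ 2 := by exact_mod_cast h
  have h1 : (g : ℤ) ∣ (g' : ℤ) := dvd_of_sq (Int.squarefree_natCast.2 ha') (by exact_mod_cast hg)
    (Dvd.intro_left _ h')
  have h2 : (g' : ℤ) ∣ (g : ℤ) := dvd_of_sq (Int.squarefree_natCast.2 ha) (by exact_mod_cast hg')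
    (Dvd.intro_left _ h'.symm)
  have h3 : g = g' := Nat.dvd_antisymm (by exact_mod_cast h1) (by exact_mod_cast h2)
  subst h3
  exact Nat.eq_of_mul_eq_mul_right (by positivity) h

theorem tw_spec {M D : ℕ} (hM : Squarefree M) (hD : Squarefree D) :
    Squarefree (tw M D) ∧ M * D = tw M D * Nat.gcd M D ^ 2 := by
  have hM0 := hM.ne_zero
  have hD0 := hD.ne_zero
  obtain ⟨g, M', D', hg, hc, e1, e2⟩ := Nat.exists_coprime' (m := M) (n := D)
    (Nat.gcd_pos_of_pos_left _ (Nat.pos_of_ne_zero hM0))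
  have hgcd : Nat.gcd M D = g := by
    rw [e1, e2, Nat.gcd_mul_right, hc, one_mul]
  have e3 : tw M D = M' * D' := by
    show M * D / Nat.gcd M D ^ 2 = _
    rw [hgcd]
    have e4 : M * D = M' * D' * g ^ 2 := by
      rw [e1, e2]
      ring
    rw [e4, Nat.mul_div_cancel _ (by positivity)]
  have hM' : Squarefree M' := hM.squarefree_of_dvd (Dvd.intro _ e1.symm)
  have hD' : Squarefree D' := hD.squarefree_of_dvd (Dvd.intro _ e2.symm)
  refine ⟨?_, ?_⟩
  · rw [e3, Nat.squarefree_mul hc]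
    exact ⟨hM', hD'⟩
  · rw [e3, hgcd, e1, e2]
    ring

theorem cls_dec : ∀ a < 60, ∀ b < 60, (a * (b * b) % 60 = 1 ∨ a * (b * b) % 60 = 49) →
    (a = 1 ∨ a = 49) := by decide +kernel

theorem cls_mul_dec {x y : ℕ} (hx : Fm x) (hy : Fm y) : Fm (x * y) := by
  unfold Fm at *
  rw [Nat.mul_mod]
  rcases hx with h | h <;> rcases hy with h' | h' <;> rw [h, h'] <;> norm_num

theorem cls_part {a b : ℕ} (h : Fm (a * b ^ 2)) : Fm a := by
  unfold Fm at *
  have h1 := cls_dec (a % 60) (Nat.mod_lt _ (by norm_num)) (b % 60) (Nat.mod_lt _ (by norm_num))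
  apply h1
  have e : a % 60 * (b % 60 * (b % 60)) % 60 = a * b ^ 2 % 60 := by
    rw [sq, Nat.mul_mod a, Nat.mul_mod b, Nat.mul_mod (a % 60) (b % 60 * (b % 60)),
      Nat.mod_mod]
  rw [e]
  exact h

section
variable {k : ℕ} (M : Fin k → ℕ)

theorem fm_prod (hM : ∀ i, Fm (M i)) (T : Finset (Fin k)) : Fm (∏ i ∈ T, M i) := by
  induction T using Finset.induction_on with
  | empty => left; rw [prod_empty]; norm_num
  | insert i T hi ih =>
    rw [prod_insert hi]
    exact cls_mul_dec (hM i) ih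

theorem exMT (h0 : ∀ i, M i ≠ 0) (T : Finset (Fin k)) :
    ∃ a b : ℕ, Squarefree a ∧ b ≠ 0 ∧ ∏ i ∈ T, M i = a * b ^ 2 := by
  obtain ⟨a, b, hab, ha⟩ := Nat.sq_mul_squarefree (∏ i ∈ T, M i)
  have hP : ∏ i ∈ T, M i ≠ 0 := prod_ne_zero_iff.2 fun i _ => h0 i
  refine ⟨a, b, ha, ?_, by rw [← hab, mul_comm]⟩
  rintro rfl
  rw [zero_pow two_ne_zero, zero_mul] at hab
  exact hP hab.symm

/-- the condition on the twist `D` -/
def AG (D : ℕ) : Prop := ∀ (T : Finset (Fin k)) (e g : ℕ), Squarefree e →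
  D * ∏ i ∈ T, M i = e * g ^ 2 → Crit e ∧ e ≠ 1

theorem nat_sq_of {x y z : ℕ} (hy : y ≠ 0) (h : x * y ^ 2 = z ^ 2) : IsSquare x := by
  have h1 : y ^ 2 ∣ z ^ 2 := Dvd.intro_left _ h
  have h2 : y ∣ z := (Nat.pow_dvd_pow_iff two_ne_zero).1 h1
  obtain ⟨t, rfl⟩ := h2
  refine ⟨t, ?_⟩
  have h3 : x * y ^ 2 = (t * t) * y ^ 2 := by rw [h]; ring
  exact Nat.eq_of_mul_eq_mul_right (by positivity) h3

/-- **the proportion for the twists of `X_0(15)`** -/
theorem prop15 (hM : ∀ i, Squarefree (M i) ∧ Fm (M i))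
    (hI : ∀ T : Finset (Fin k), T.Nonempty → ¬ IsSquare (∏ i ∈ T, M i)) :
    Tendsto (fun X : ℕ => (((Icc 1 X).filter fun D => (Squarefree D ∧ Fm D) ∧ AG M D).card : ℝ) /
      (((Icc 1 X).filter fun D => Squarefree D ∧ Fm D).card : ℝ)) atTop
      (nhds (Pool.Agent.H757_X15.DD.c1 ^ 2 ^ k)) := by
  have h0 : ∀ i, M i ≠ 0 := fun i => (hM i).1.ne_zero
  choose a b ha hb hab using exMT M h0
  have hcls : ∀ T, Fm (a T) := fun T => cls_part (b := b T) (by
    rw [← hab]
    exact fm_prod M (fun i => (hM i).2) T)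
  -- distinct
  have hinj : Function.Injective a := by
    intro S S' h
    by_contra hne
    have hne' : (symmDiff S S').Nonempty := by
      rw [Finset.nonempty_iff_ne_empty]
      intro h1
      exact hne (symmDiff_eq_bot.1 h1)
    apply hI _ hne'
    -- the product of the two products
    have e1 : (∏ i ∈ S, M i) * ∏ i ∈ S', M i =
        (∏ i ∈ symmDiff S S', M i) * (∏ i ∈ S ∩ S', M i) ^ 2 := by
      have d1 : ∏ i ∈ S, M i = (∏ i ∈ S \ S', M i) * ∏ i ∈ S ∩ S', M i := by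
        rw [← Finset.prod_union (Finset.disjoint_sdiff_inter S S'), Finset.sdiff_union_inter]
      have d2 : ∏ i ∈ S', M i = (∏ i ∈ S' \ S, M i) * ∏ i ∈ S ∩ S', M i := by
        rw [Finset.inter_comm, ← Finset.prod_union (Finset.disjoint_sdiff_inter S' S),
          Finset.sdiff_union_inter]
      have d3 : ∏ i ∈ symmDiff S S', M i = (∏ i ∈ S \ S', M i) * ∏ i ∈ S' \ S, M i := by
        have hdis : Disjoint (S \ S') (S' \ S) := disjoint_sdiff_sdiff
        rw [← Finset.prod_union hdis]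
        rfl
      rw [d1, d2, d3]
      ring
    rw [hab S, hab S', h] at e1
    refine nat_sq_of (y := ∏ i ∈ S ∩ S', M i) (z := a S' * b S * b S')
      (prod_ne_zero_iff.2 fun i _ => h0 i) ?_
    rw [← e1]
    ring
  -- the criterion
  set T₀ : Finset ℕ := univ.image a with hT₀
  have hcard : T₀.card = 2 ^ k := by
    rw [hT₀, card_image_of_injective _ hinj, card_univ, Fintype.card_finset, Fintype.card_fin]
  have key : ∀ D : ℕ, Squarefree D → D ∉ T₀ →
      (AG M D ↔ ∀ m ∈ T₀, (Crit (tw m D) ↔ m ∈ T₀)) := by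
    intro D hD hDT
    have hD0 := hD.ne_zero
    constructor
    · intro h m hm
      refine ⟨fun _ => hm, fun _ => ?_⟩
      obtain ⟨T, -, rfl⟩ := mem_image.1 hm
      obtain ⟨h1, h2⟩ := tw_spec (ha T) hD
      refine (h T (tw (a T) D) (Nat.gcd (a T) D * b T) h1 ?_).1
      rw [hab T]
      have : D * (a T * b T ^ 2) = (a T * D) * b T ^ 2 := by ring
      rw [this, h2]
      ring
    · intro h T e g he heg
      have hm : a T ∈ T₀ := mem_image_of_mem a (mem_univ T)
      obtain ⟨h1, h2⟩ := tw_spec (ha T) hD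
      have hP : ∏ i ∈ T, M i ≠ 0 := prod_ne_zero_iff.2 fun i _ => h0 i
      have hg0 : g ≠ 0 := by
        rintro rfl
        rw [zero_pow two_ne_zero, mul_zero] at heg
        exact mul_ne_zero hD0 hP heg
      have hgcd : Nat.gcd (a T) D ≠ 0 := by
        have := Nat.gcd_pos_of_pos_right (a T) (Nat.pos_of_ne_zero hD0)
        omega
      have he' : e = tw (a T) D := by
        refine sqf_unique he h1 hg0 (mul_ne_zero hgcd (hb T)) ?_
        rw [← heg, hab T]
        have : D * (a T * b T ^ 2) = (a T * D) * b T ^ 2 := by ring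
        rw [this, h2]
        ring
      refine ⟨by rw [he']; exact (h _ hm).2 hm, ?_⟩
      intro h3
      rw [he'] at h3
      rw [h3, one_mul] at h2
      -- `a T * D` is a square: `D = a T`
      apply hDT
      have : D = a T := by
        refine sqf_unique (g := a T) (g' := Nat.gcd (a T) D) hD (ha T) (ha T).ne_zero hgcd ?_
        rw [← h2]
        ring
      rw [this]
      exact hm
  have L := lawD t_JDQ T₀ T₀ (fun m hm => by
    obtain ⟨T, -, rfl⟩ := mem_image.1 hm
    exact ⟨ha T, hcls T⟩) (Subset.refl _)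
  rw [sdiff_self, Finset.bot_eq_empty, card_empty, pow_zero, mul_one, hcard] at L
  -- the denominators
  have hTop : Tendsto (fun X : ℕ => (((Icc 1 X).filter fun D => Squarefree D ∧ Fm D).card : ℝ))
      atTop atTop := by
    have h1 := Pool.Agent.H757_X15.DD.t_DEN2
    unfold Pool.Agent.H757_X15.DD.S_DEN2 at h1
    have h2 : Tendsto (fun X : ℕ => (X : ℝ)) atTop atTop := tendsto_natCast_atTop_atTop
    have h3 := h1.pos_mul_atTop (by positivity) h2
    refine h3.congr' ?_
    filter_upwards [eventually_gt_atTop 0] with X hX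
    have : (X : ℝ) ≠ 0 := by positivity
    field_simp
  refine tendsto_of_tendsto_of_dist L ?_
  have h3 : Tendsto (fun X : ℕ => (2 ^ k : ℝ) /
      (((Icc 1 X).filter fun D => Squarefree D ∧ Fm D).card : ℝ)) atTop (nhds 0) :=
    tendsto_const_nhds.div_atTop hTop
  refine squeeze_zero (fun X => dist_nonneg) (fun X => ?_) h3
  rw [Real.dist_eq, ← sub_div, abs_div, abs_of_nonneg (Nat.cast_nonneg _ : (0 : ℝ) ≤
    (((Icc 1 X).filter fun D => Squarefree D ∧ Fm D).card : ℝ))]
  refine div_le_div_of_nonneg_right ?_ (Nat.cast_nonneg _)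
  set A := (Icc 1 X).filter fun D => (Squarefree D ∧ Fm D) ∧
    ∀ m ∈ T₀, (Crit (tw m D) ↔ m ∈ T₀) with hA
  set B := (Icc 1 X).filter fun D => (Squarefree D ∧ Fm D) ∧ AG M D with hB
  have s1 : A ⊆ B ∪ T₀ := by
    intro D hD
    rw [hA, mem_filter] at hD
    rw [mem_union, hB, mem_filter]
    by_cases h : D ∈ T₀
    · exact Or.inr h
    · exact Or.inl ⟨hD.1, hD.2.1, (key D hD.2.1.1 h).2 hD.2.2⟩
  have s2 : B ⊆ A ∪ T₀ := by
    intro D hD
    rw [hB, mem_filter] at hD
    rw [mem_union, hA, mem_filter]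
    by_cases h : D ∈ T₀
    · exact Or.inr h
    · exact Or.inl ⟨hD.1, hD.2.1, (key D hD.2.1.1 h).1 hD.2.2⟩
  have c1 := (card_le_card s1).trans (card_union_le _ _)
  have c2 := (card_le_card s2).trans (card_union_le _ _)
  rw [hcard] at c1 c2
  have c1' : (A.card : ℝ) ≤ B.card + 2 ^ k := by exact_mod_cast c1
  have c2' : (B.card : ℝ) ≤ A.card + 2 ^ k := by exact_mod_cast c2
  rw [abs_le]
  constructor <;> linarith

end

end Pool.Agent.H3.MQ
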