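import Pool.Graph.R_pool_sql_team_seeded_63374d34.N916.MO.Hg
import Pool.Graph.R_pool_sql_team_seeded_63374d34.N963.JT.Den

/-!
# The good discriminants among all real quadratic fields
-/

set_option autoImplicit false

open scoped Classical

namespace Pool.Agent.H3.MQ

open Finset Filter
open Pool.Agent.N919.BS (NN NS NF HG Rt17 UU eqd Fund core low1 ratio NF_eq NN_true)
open Pool.Agent.N916.ND (QQ QQ_main rh)
open Pool.Agent.N916.MO (G17 hg17 jac_k)
open Pool.Agent.Y703.CQ (c2)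

/-- `17` splits -/
def J17 (d : ℤ) : Prop := jacobiSym d 17 = 1

theorem NN_congr {P Q : ℤ → Prop} {s s' : ℤ} {k k' r Y : ℕ}
    (h : ∀ M : ℕ, 1 ≤ M → (P (s * ((k * M : ℕ) : ℤ)) ↔ Q (s' * ((k' * M : ℕ) : ℤ)))) :
    NN P s k r Y = NN Q s' k' r Y := by
  unfold NN
  congr 1
  ext M
  rw [mem_filter, mem_filter, mem_Icc]
  constructor
  · rintro ⟨h1, h2, h3, h4⟩
    exact ⟨h1, h2, h3, (h M h1.1).1 h4⟩
  · rintro ⟨h1, h2, h3, h4⟩
    exact ⟨h1, h2, h3, (h M h1.1).2 h4⟩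

theorem NN_nat {P : ℤ → Prop} {Q : ℕ → Prop} {s : ℤ} {k r Y : ℕ}
    (h : ∀ M : ℕ, 1 ≤ M → (P (s * ((k * M : ℕ) : ℤ)) ↔ Q M)) {S : Finset ℕ}
    (hS : ∀ M, M ∈ S ↔ (1 ≤ M ∧ M ≤ Y) ∧ Squarefree M ∧ M % 4 = r ∧ Q M) :
    NN P s k r Y = S.card := by
  unfold NN
  congr 1
  ext M
  rw [mem_filter, mem_Icc, hS]
  constructor
  · rintro ⟨h1, h2, h3, h4⟩
    exact ⟨h1, h2, h3, (h M h1.1).1 h4⟩
  · rintro ⟨h1, h2, h3, h4⟩
    exact ⟨h1, h2, h3, (h M h1.1).2 h4⟩

theorem NN_zero {P : ℤ → Prop} {s : ℤ} {k r Y : ℕ}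
    (h : ∀ M : ℕ, 1 ≤ M → ¬ P (s * ((k * M : ℕ) : ℤ))) : NN P s k r Y = 0 := by
  unfold NN
  rw [card_eq_zero]
  refine eq_empty_of_forall_notMem fun M hM => ?_
  rw [mem_filter, mem_Icc] at hM
  exact h M hM.1.1 hM.2.2.2

theorem hg1 : HG (fun d => 0 < d ∧ J17 d) G17 c2 := by
  intro s k r hs hk hr ε hε
  rcases hs with rfl | rfl
  · obtain ⟨Y₀, h⟩ := hg17 1 k r (Or.inl rfl) hk hr ε hε
    refine ⟨Y₀, fun Y hY => ?_⟩
    have h1 := h Y hY
    have key : ∀ (Q : ℤ → Prop), NN (fun d => (0 < d ∧ J17 d) ∧ Q d) 1 k r Y =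
        NN (fun d => Rt17 d ∧ Q d) 1 k r Y := by
      intro Q
      refine NN_congr fun M hM1 => ?_
      have hk0 : 0 < k := by rcases hk with rfl | rfl <;> omega
      have h0 : (0 : ℤ) < 1 * ((k * M : ℕ) : ℤ) := by
        have : 0 < k * M := Nat.mul_pos hk0 hM1
        omega
      have h2 : ¬ (1 : ℤ) * ((k * M : ℕ) : ℤ) < 0 := by omega
      unfold Rt17 J17
      simp only [h0, h2, true_and, false_and, or_false]
    have e1 := key G17
    have e2 := key fun _ => True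
    simp only [and_true] at e2
    rw [e1, e2]
    exact h1
  · refine ⟨0, fun Y _ => ?_⟩
    have key : ∀ (Q : ℤ → Prop), NN (fun d => (0 < d ∧ J17 d) ∧ Q d) (-1) k r Y = 0 := by
      intro Q
      refine NN_zero fun M hM h => ?_
      have h0 := h.1.1
      omega
    have e1 := key G17
    have e2 := key fun _ => True
    simp only [and_true] at e2
    rw [e1, e2]
    simp only [Nat.cast_zero, mul_zero, sub_self, abs_zero]
    positivity

/-- the residues -/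
def Ar (r : ℕ) : Finset ℕ := (range 68).filter fun a => a % 4 = r ∧ jacobiSym a 17 = 1

/-- the residues -/
def Br (r : ℕ) : Finset ℕ := (range 68).filter fun a => a % 4 = r ∧ ¬ 17 ∣ a

theorem jac_mod (n : ℕ) : jacobiSym ((n % 68 : ℕ) : ℤ) 17 = jacobiSym n 17 := by
  apply jacobiSym.mod_left'
  push_cast
  omega

theorem sum_A (r Y : ℕ) : (((Icc 1 Y).filter fun M => Squarefree M ∧ M % 4 = r ∧
    jacobiSym M 17 = 1).card) = ∑ a ∈ Ar r, (UU 68 a Y).card := by
  rw [← card_biUnion]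
  · congr 1
    ext M
    rw [mem_filter, mem_biUnion]
    constructor
    · rintro ⟨h1, h2, h3, h4⟩
      refine ⟨M % 68, ?_, ?_⟩
      · unfold Ar
        rw [mem_filter, mem_range]
        exact ⟨Nat.mod_lt _ (by norm_num), by omega, by rw [jac_mod]; exact h4⟩
      · unfold UU
        rw [mem_filter]
        exact ⟨h1, h2, rfl⟩
    · rintro ⟨a, ha, hM⟩
      unfold Ar at ha
      unfold UU at hM
      rw [mem_filter, mem_range] at ha
      rw [mem_filter] at hM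
      refine ⟨hM.1, hM.2.1, by omega, ?_⟩
      rw [← jac_mod, hM.2.2]
      exact ha.2.2
  · intro a _ b _ hab
    unfold UU
    rw [Function.onFun, disjoint_left]
    intro M h1 h2
    rw [mem_filter] at h1 h2
    exact hab (h1.2.2.symm.trans h2.2.2)

theorem sum_B (r Y : ℕ) : (QQ r Y {17}).card = ∑ a ∈ Br r, (UU 68 a Y).card := by
  rw [← card_biUnion]
  · congr 1
    ext M
    unfold QQ
    rw [mem_filter, mem_biUnion]
    constructor
    · rintro ⟨h1, h2, h3, h4⟩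
      refine ⟨M % 68, ?_, ?_⟩
      · unfold Br
        rw [mem_filter, mem_range]
        have := h4 17 (mem_singleton_self 17)
        exact ⟨Nat.mod_lt _ (by norm_num), by omega, by omega⟩
      · unfold UU
        rw [mem_filter]
        exact ⟨h1, h2, rfl⟩
    · rintro ⟨a, ha, hM⟩
      unfold Br at ha
      unfold UU at hM
      rw [mem_filter, mem_range] at ha
      rw [mem_filter] at hM
      refine ⟨hM.1, hM.2.1, by omega, ?_⟩
      intro p hp
      rw [mem_singleton] at hp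
      subst hp
      omega
  · intro a _ b _ hab
    unfold UU
    rw [Function.onFun, disjoint_left]
    intro M h1 h2
    rw [mem_filter] at h1 h2
    exact hab (h1.2.2.symm.trans h2.2.2)

theorem card_A1 : (Ar 1).card = 8 := by decide +kernel
theorem card_A3 : (Ar 3).card = 8 := by decide +kernel
theorem card_B1 : (Br 1).card = 16 := by decide +kernel
theorem card_B3 : (Br 3).card = 16 := by decide +kernel

theorem gcd_B : ∀ r ∈ ({1, 3} : Finset ℕ), ∀ a ∈ Br r, a.gcd 68 = 1 := by decide +kernel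
theorem A_sub_B : ∀ r ∈ ({1, 3} : Finset ℕ), Ar r ⊆ Br r := by decide +kernel

/-- the density of the squarefree numbers which are squares modulo `17` -/
theorem cntJ : ∃ c C : ℝ, 0 < c ∧ 0 ≤ C ∧ ∀ r Y : ℕ, (r = 1 ∨ r = 3) →
    |(NN (fun _ => True) 1 1 r Y : ℝ) - c * Y| ≤ C * Real.sqrt Y ∧
    |(((Icc 1 Y).filter fun M => Squarefree M ∧ M % 4 = r ∧ jacobiSym M 17 = 1).card : ℝ) -
      17 / 36 * c * Y| ≤ C * Real.sqrt Y := by
  obtain ⟨c, C, hc, hcC, hC, h⟩ := QQ_main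
  refine ⟨c, 3 * C + 16, hc, by linarith, fun r Y hr => ?_⟩
  have hs : 0 ≤ Real.sqrt Y := Real.sqrt_nonneg _
  have h1 := h ∅ (by simp) r (Y : ℝ) hr (Nat.cast_nonneg _)
  have h2 := h {17} (by simp; norm_num) r (Y : ℝ) hr (Nat.cast_nonneg _)
  rw [Nat.floor_natCast] at h1 h2
  have e1 : (QQ r Y ∅).card = NN (fun _ => True) 1 1 r Y := by
    refine (NN_nat (Q := fun _ => True) (fun M _ => Iff.rfl) fun M => ?_).symm
    unfold QQ
    rw [mem_filter, mem_Icc]
    simp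
  rw [e1] at h1
  have hrh0 : rh ∅ = 1 := by unfold rh; simp
  have hrh : rh {17} = 17 / 18 := by unfold rh; norm_num
  rw [hrh0] at h1
  rw [hrh, sum_B] at h2
  have hr' : r ∈ ({1, 3} : Finset ℕ) := by simpa using hr
  have hr68 : r < 68 := by omega
  have hrB : r ∈ Br r := by
    unfold Br
    rw [mem_filter, mem_range]
    omega
  have hu : ∀ a ∈ Br r, |((UU 68 a Y).card : ℝ) - ((UU 68 r Y).card : ℝ)| ≤ Real.sqrt Y := by
    intro a ha
    have hlt : a < 68 := by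
      unfold Br at ha
      rw [mem_filter, mem_range] at ha
      exact ha.1
    exact eqd 68 a r Y (by norm_num) hlt hr68
      ((gcd_B r hr' a ha).trans (gcd_B r hr' r hrB).symm)
  have hsum : ∀ S : Finset ℕ, S ⊆ Br r → |((∑ a ∈ S, (UU 68 a Y).card : ℕ) : ℝ) -
      S.card * ((UU 68 r Y).card : ℝ)| ≤ S.card * Real.sqrt Y := by
    intro S hS
    have e : ((∑ a ∈ S, (UU 68 a Y).card : ℕ) : ℝ) - S.card * ((UU 68 r Y).card : ℝ) =
        ∑ a ∈ S, (((UU 68 a Y).card : ℝ) - ((UU 68 r Y).card : ℝ)) := by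
      rw [sum_sub_distrib, sum_const, nsmul_eq_mul]
      push_cast
      rfl
    rw [e]
    refine (abs_sum_le_sum_abs _ _).trans ?_
    refine (sum_le_sum fun a ha => hu a (hS ha)).trans ?_
    rw [sum_const, nsmul_eq_mul]
  have hA := hsum (Ar r) (A_sub_B r hr')
  have hB := hsum (Br r) (Subset.refl _)
  have cA : (Ar r).card = 8 := by
    rcases hr with rfl | rfl
    · exact card_A1
    · exact card_A3
  have cB : (Br r).card = 16 := by
    rcases hr with rfl | rfl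
    · exact card_B1
    · exact card_B3
  rw [cA] at hA
  rw [cB] at hB
  rw [sum_A]
  rw [card_empty, pow_zero, mul_one] at h1
  rw [card_singleton, pow_one] at h2
  rw [abs_le] at hA hB h1 h2 ⊢
  rw [abs_le]
  push_cast at hA hB h1 h2 ⊢
  refine ⟨⟨?_, ?_⟩, ?_, ?_⟩
  · nlinarith [h1.1]
  · nlinarith [h1.2]
  · nlinarith [h2.1, hA.1, hB.2]
  · nlinarith [h2.2, hA.2, hB.1]

theorem small {C ε : ℝ} (hε : 0 < ε) : ∃ Y₀ : ℕ, ∀ Y : ℕ, Y₀ ≤ Y →
    C * Real.sqrt Y ≤ ε * Y := by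
  refine ⟨⌈(C / ε) ^ 2⌉₊, fun Y hY => ?_⟩
  have h1 : (C / ε) ^ 2 ≤ Y := (Nat.le_ceil _).trans (by exact_mod_cast hY)
  have h2 : C / ε ≤ Real.sqrt Y := Real.le_sqrt_of_sq_le h1
  have h3 : C ≤ Real.sqrt Y * ε := by rwa [div_le_iff₀ hε] at h2
  have h4 : Real.sqrt Y * Real.sqrt Y = Y := Real.mul_self_sqrt (Nat.cast_nonneg _)
  have h5 : 0 ≤ Real.sqrt Y := Real.sqrt_nonneg _
  nlinarith

theorem hg2 : HG (fun d => 0 < d) J17 (17 / 36) := by
  intro s k r hs hk hr ε hε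
  rcases hs with rfl | rfl
  · obtain ⟨c, C, hc, hC, h⟩ := cntJ
    obtain ⟨Y₀, hY₀⟩ := small (C := 2 * C) hε
    refine ⟨Y₀, fun Y hY => ?_⟩
    have hk0 : 0 < k := by rcases hk with rfl | rfl <;> omega
    obtain ⟨h1, h2⟩ := h r Y hr
    have e1 : NN (fun d => 0 < d ∧ J17 d) 1 k r Y = ((Icc 1 Y).filter fun M =>
        Squarefree M ∧ M % 4 = r ∧ jacobiSym M 17 = 1).card := by
      refine NN_nat (Q := fun M => jacobiSym M 17 = 1) (fun M hM1 => ?_) fun M => ?_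
      · have h0 : (0 : ℤ) < 1 * ((k * M : ℕ) : ℤ) := by
          have : 0 < k * M := Nat.mul_pos hk0 hM1
          omega
        unfold J17
        rw [one_mul] at h0 ⊢
        rw [jac_k hk]
        simp only [h0, true_and]
      · rw [mem_filter, mem_Icc]
    have e2 : NN (fun d => 0 < d) 1 k r Y = NN (fun _ => True) 1 1 r Y := by
      refine NN_congr fun M hM1 => ?_
      have h0 : (0 : ℤ) < 1 * ((k * M : ℕ) : ℤ) := by
        have : 0 < k * M := Nat.mul_pos hk0 hM1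
        omega
      simp only [h0]
    rw [e1, e2]
    have h3 := hY₀ Y hY
    have hs : 0 ≤ Real.sqrt Y := Real.sqrt_nonneg _
    rw [abs_le] at h1 h2 ⊢
    constructor
    · nlinarith [h1.2, h2.1, mul_nonneg hC hs]
    · nlinarith [h1.1, h2.2, mul_nonneg hC hs]
  · refine ⟨0, fun Y _ => ?_⟩
    have key : ∀ (Q : ℤ → Prop), NN (fun d => 0 < d ∧ Q d) (-1) k r Y = 0 := by
      intro Q
      refine NN_zero fun M hM h => ?_
      have h0 := h.1
      omega
    have e1 := key J17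
    have e2 := key fun _ => True
    simp only [and_true] at e2
    rw [e1, e2]
    simp only [Nat.cast_zero, mul_zero, sub_self, abs_zero]
    positivity

theorem low_pos : ∃ (c₁ : ℝ) (X₁ : ℕ), 0 < c₁ ∧ ∀ X : ℕ, X₁ ≤ X →
    c₁ * X ≤ (NF (fun d => 0 < d) X : ℝ) := by
  obtain ⟨c₁, X₁, hc₁, hlow⟩ := low1
  refine ⟨c₁, X₁, hc₁, fun X hX => (hlow X hX).trans ?_⟩
  have h1 : NN (fun _ => True) 1 1 1 X = NN (fun d => 0 < d) 1 1 1 X := by
    refine NN_congr fun M hM1 => ?_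
    have h0 : (0 : ℤ) < 1 * ((1 * M : ℕ) : ℤ) := by omega
    simp only [h0]
  rw [NF_eq]
  exact_mod_cast (by omega)

/-- **the good real quadratic fields** -/
theorem real_good {A T : ℕ → ℕ} (hA : ∀ X, 1 ≤ X → A X + 1 = NF (fun d => (0 < d ∧ J17 d) ∧ G17 d) X)
    (hT : ∀ X, 1 ≤ X → T X + 1 = NF (fun d => 0 < d) X) :
    Tendsto (fun X : ℕ => (A X : ℝ) / (T X : ℝ)) atTop (nhds (c2 * (17 / 36))) := by
  obtain ⟨c₁, X₁, hc₁, hlow⟩ := low_pos
  have hc2 : 0 ≤ c2 ∧ c2 ≤ 1 := Pool.Agent.N916.MO.c201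
  refine ratio (c₁ := c₁ / 2) (X₁ := X₁ + ⌈2 / c₁⌉₊ + 1) (by positivity) (fun X hX => ?_) ?_
  · have h1 := hlow X (by omega)
    have h2 := hT X (by omega)
    have h3 : (T X : ℝ) + 1 = NF (fun d => 0 < d) X := by exact_mod_cast h2
    have h4 : 2 / c₁ ≤ X := (Nat.le_ceil _).trans (by exact_mod_cast (by omega))
    have h5 : 2 ≤ X * c₁ := by rwa [div_le_iff₀ hc₁] at h4
    linarith
  · intro ε hε
    obtain ⟨Y1, h1⟩ := Pool.Agent.N963.JT.NF_diff hg1 (ε := ε / 3) (by positivity)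
    obtain ⟨Y2, h2⟩ := Pool.Agent.N963.JT.NF_diff hg2 (ε := ε / 3) (by positivity)
    refine ⟨Y1 + Y2 + ⌈6 / ε⌉₊ + 1, fun X hX => ?_⟩
    have a1 := h1 X (by omega)
    have a2 := h2 X (by omega)
    have hA' : (A X : ℝ) + 1 = NF (fun d => (0 < d ∧ J17 d) ∧ G17 d) X := by
      exact_mod_cast hA X (by omega)
    have hT' : (T X : ℝ) + 1 = NF (fun d => 0 < d) X := by exact_mod_cast hT X (by omega)
    have h4 : 6 / ε ≤ X := (Nat.le_ceil _).trans (by exact_mod_cast (by omega))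
    have h5 : 6 ≤ X * ε := by rwa [div_le_iff₀ hε] at h4
    rw [← hA'] at a1
    rw [← hT'] at a2
    have a3 : |c2 * (NF (fun d => 0 < d ∧ J17 d) X : ℝ) - c2 * (17 / 36 * (T X + 1 : ℝ))| ≤
        ε / 3 * X := by
      rw [← mul_sub, abs_mul, abs_of_nonneg hc2.1]
      exact (mul_le_mul hc2.2 a2 (abs_nonneg _) (by norm_num)).trans (by rw [one_mul])
    rw [abs_le] at a1 a3 ⊢
    constructor
    · nlinarith [a1.1, a3.1, hc2.1, hc2.2]
    · nlinarith [a1.2, a3.2, hc2.1, hc2.2]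

end Pool.Agent.H3.MQ
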