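import Pool.Agent.H3.MQ.K

/-!
# Multiquadratic fields given by generators in a cyclotomic field
-/

set_option autoImplicit false

open NumberField

namespace Pool.Agent.H3.MQ

open Pool.Agent.N856.MT (EK)

open scoped Classical

section
variable {L : Type} [Field L] [CharZero L] {k : ℕ} (r : Fin k → L)

/-- the generators -/
def rgen (i : Fin k) : IntermediateField.adjoin ℚ (Set.range r) :=
  ⟨r i, IntermediateField.subset_adjoin ℚ _ ⟨i, rfl⟩⟩

theorem gen_top : IntermediateField.adjoin ℚ (Set.range (rgen r)) = ⊤ := by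
  rw [← top_le_iff]
  rintro ⟨x, hx⟩ -
  induction hx using IntermediateField.adjoin_induction with
  | mem x hx =>
    obtain ⟨i, rfl⟩ := hx
    exact IntermediateField.subset_adjoin ℚ _ ⟨i, rfl⟩
  | algebraMap q => exact IntermediateField.algebraMap_mem _ q
  | add x y hx hy h1 h2 => exact add_mem h1 h2
  | inv x hx h1 => exact inv_mem h1
  | mul x y hx hy h1 h2 => exact mul_mem h1 h2

theorem rgen_sq {m : Fin k → ℤ} (hr : ∀ i, r i ^ 2 = (m i : L)) (i : Fin k) :
    (rgen r i) ^ 2 = ((m i : ℤ) : IntermediateField.adjoin ℚ (Set.range r)) := by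
  apply Subtype.ext
  have := hr i
  push_cast
  exact this

end

/-- fields generated by square roots of positive numbers are totally real -/
theorem tot_real {F : Type} [Field F] [NumberField F] {k : ℕ} {r : Fin k → F} {m : Fin k → ℤ}
    (hr : ∀ i, r i ^ 2 = (m i : F)) (hm : ∀ i, 0 < m i)
    (hgen : IntermediateField.adjoin ℚ (Set.range r) = ⊤) : IsTotallyReal F := by
  refine ⟨fun v => ?_⟩
  rw [InfinitePlace.isReal_iff, ComplexEmbedding.isReal_iff]
  set φ := v.embedding with hφ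
  have hri : ∀ i, (starRingEnd ℂ) (φ (r i)) = φ (r i) := by
    intro i
    have h1 : φ (r i) ^ 2 = ((m i : ℤ) : ℂ) := by rw [← map_pow, hr i, map_intCast]
    have h2 : ((Real.sqrt (m i) : ℝ) : ℂ) ^ 2 = ((m i : ℤ) : ℂ) := by
      have h3 : (Real.sqrt (m i)) ^ 2 = ((m i : ℤ) : ℝ) :=
        Real.sq_sqrt (by exact_mod_cast (hm i).le)
      have h4 := congrArg (fun x : ℝ => (x : ℂ)) h3
      push_cast at h4
      exact h4
    rcases sq_eq_sq_iff_eq_or_eq_neg.1 (h1.trans h2.symm) with h | h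
    · rw [h, Complex.conj_ofReal]
    · rw [h, map_neg, Complex.conj_ofReal]
  ext x
  rw [ComplexEmbedding.conjugate_coe_eq]
  have hx : x ∈ IntermediateField.adjoin ℚ (Set.range r) := by
    rw [hgen]
    exact IntermediateField.mem_top
  induction hx using IntermediateField.adjoin_induction with
  | mem x hx =>
    obtain ⟨i, rfl⟩ := hx
    exact hri i
  | algebraMap q =>
    rw [eq_ratCast, map_ratCast, map_ratCast]
  | add x y _ _ h1 h2 => rw [map_add, map_add, h1, h2]
  | inv x _ h1 => rw [map_inv₀, map_inv₀, h1]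
  | mul x y _ _ h1 h2 => rw [map_mul, map_mul, h1, h2]

/-- **The rank formula, generators in a cyclotomic field.** -/
theorem main2 {a₀ b₀ : ℤ} (h0 : 4 * a₀ ^ 3 + 27 * b₀ ^ 2 ≠ 0) {Ok : ℤ → Prop}
    (hOk : ∀ e : ℤ, Squarefree e → Ok e → Q0 (a₀ * e ^ 2) (b₀ * e ^ 3)) {d : ℤ} (hd : d ≠ 0)
    {n : ℕ} [NeZero n] (L : Type) [Field L]
    [NumberField L] [IsCyclotomicExtension {n} ℚ L] {k : ℕ}
    {r : Fin k → L} {m : Fin k → ℤ} (hr : ∀ i, r i ^ 2 = (m i : L)) (hm : ∀ i, m i ≠ 0)
    (hT : ∀ (T : Finset (Fin k)) (e g : ℤ), Squarefree e → d * ∏ i ∈ T, m i = e * g ^ 2 → Ok e) :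
    Zero (EK (IntermediateField.adjoin ℚ (Set.range r)) (a₀ * d ^ 2) (b₀ * d ^ 3)) :=
  main1 h0 hOk hd (n := n) L _ (rgen_sq r hr) hm (gen_top r) hT

end Pool.Agent.H3.MQ
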